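import Mathlib

/-!
# Module Ark (90 lines): the arithmetic of the two bounds

`T = m² / n²`. For all `x` is `x m - x² n² / 4 = T - (m / n - x n / 2)²`.
PROOF. `key`: `|m / n - x n / 2| ≤ δ (m / n)`: multiply by `2 n`: `|2 m - x n²| ≤ δ (2 m)`. So
`(m / n - x n / 2)² ≤ δ² T`.
`small`: `m ≤ n (n - 1) / 2` and `(n - 1)² ≤ 8 n` for `n ≤ 9` (`interval_cases n`, `decide` for
`Nat.choose`, `nlinarith` or `Nat.pow_le_pow_left`).
`big`: if `m² > 2 n³` then `10 ≤ n` by `small`, and `2 m ≤ n (n - 1)` (`Nat.choose_two_right`,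
`Nat.div_mul_le_self`) gives `2 m ≤ n² - n` as real numbers.
-/

set_option autoImplicit false

namespace Pool.Agent.H93.EL

/-- the bounds for the number `f` of edges which are met by a line -/
structure Bds (n m : ℕ) (f : ℝ) : Prop where
  one : 1 ≤ m
  le : m ≤ n.choose 2
  A : ∀ p : ℕ, 1 ≤ p →
    (m : ℝ) / p - (n : ℝ) ^ 2 / (4 * p ^ 2) + n / (2 * p) - 1 / 4 ≤ f
  B : ∀ N : ℕ, 1 ≤ N → N * (N - 1) ≤ n →
    (1 - 1 / (N : ℝ)) * m - (1 - 1 / (N : ℝ)) ^ 2 * (n : ℝ) ^ 2 / 4 + (1 - 1 / (N : ℝ)) * n / 2 -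
      N / 4 ≤ f
  O : m ^ 2 ≤ 2 * n ^ 3 → (m : ℝ) ^ 2 / (n : ℝ) ^ 2 ≤ f

theorem key {n m x c δ : ℝ} (hn : 0 < n) (hm : 0 < m) (h1 : (1 - δ) * (2 * m) ≤ x * n ^ 2)
    (h2 : x * n ^ 2 ≤ (1 + δ) * (2 * m)) (hc : c ≤ x * n / 2) :
    (1 - δ ^ 2) * (m ^ 2 / n ^ 2) ≤ x * m - x ^ 2 * n ^ 2 / 4 + x * n / 2 - c := by
  have hu : (2 * m - x * n ^ 2) ^ 2 ≤ (δ * (2 * m)) ^ 2 := by
    refine sq_le_sq' ?_ ?_
    · nlinarith
    · nlinarith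
  have hn2 : (0 : ℝ) < n ^ 2 := by positivity
  have hid : x * m - x ^ 2 * n ^ 2 / 4 - (1 - δ ^ 2) * (m ^ 2 / n ^ 2) =
      ((δ * (2 * m)) ^ 2 - (2 * m - x * n ^ 2) ^ 2) / (4 * n ^ 2) := by
    field_simp
    ring
  have hnn : 0 ≤ ((δ * (2 * m)) ^ 2 - (2 * m - x * n ^ 2) ^ 2) / (4 * n ^ 2) :=
    div_nonneg (by linarith) (by positivity)
  linarith

theorem key0 {n m x c : ℝ} (hn : 0 < n) (h : (m / n - x * n / 2) ^ 2 ≤ x * n / 2 - c) :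
    m ^ 2 / n ^ 2 ≤ x * m - x ^ 2 * n ^ 2 / 4 + x * n / 2 - c := by
  have hid : (m / n - x * n / 2) ^ 2 = m ^ 2 / n ^ 2 - x * m + x ^ 2 * n ^ 2 / 4 := by
    field_simp
    ring
  linarith

theorem small {n m : ℕ} (hn : n ≤ 9) (hm : m ≤ n.choose 2) : m ^ 2 ≤ 2 * n ^ 3 := by
  refine le_trans (Nat.pow_le_pow_left hm 2) ?_
  clear hm
  interval_cases n <;> decide

theorem big {n m : ℕ} (hm : m ≤ n.choose 2) (h : ¬ m ^ 2 ≤ 2 * n ^ 3) :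
    10 ≤ n ∧ 2 * (m : ℝ) ≤ (n : ℝ) ^ 2 - n ∧ 2 * (n : ℝ) ^ 3 < (m : ℝ) ^ 2 := by
  refine ⟨?_, ?_, ?_⟩
  · by_contra hc
    exact h (small (by omega) hm)
  · have h1 : 2 * n.choose 2 ≤ n * (n - 1) := by
      rw [Nat.choose_two_right, mul_comm]
      exact Nat.div_mul_le_self _ _
    have h2 : 2 * m ≤ n * (n - 1) := by omega
    have h3 : (2 * m : ℝ) ≤ ((n * (n - 1) : ℕ) : ℝ) := by exact_mod_cast h2
    rcases Nat.eq_zero_or_pos n with h0 | h0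
    · subst h0
      simpa using h3
    · rw [Nat.cast_mul, Nat.cast_sub h0] at h3
      push_cast at h3
      linarith [h3]
  · have := Nat.lt_of_not_le h
    exact_mod_cast this

end Pool.Agent.H93.EL
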