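import Pool.Agent.H93.EL.Frm

/-!
# Module Lin (110 lines): the edges separated by a cut are met by a line

PROOF. `ord_card`: the map `z ↦ {z.1, z.2}` from `ord G` to `G.E` has all fibres of size exactly 2:
for `e = {x, y} ∈ G.E` (`G.card_eq`, `Finset.card_eq_two`) the fibre is `{(x, y), (y, x)}`
(`G.subV`). `Finset.card_eq_sum_card_fiberwise` (or `sum_degree` in `ElssGeom.lean`, or the
double count at the end of `main_ineq` there).

`cut_line`: `A` with `a`, `b`, `c` from `IsCut`; `q`, `x` from `line_of a b c`, `L = line[ℝ, q, x]`,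
`isFlat_line`. For `p ∈ A` is `det2 q x p > 0`, for `p ∈ G.V \ A` is `det2 q x p < 0`. If
`{z.1, z.2} ∈ G.E` and `Sep A z.1 z.2` then the edge meets `L` by `meets_of_sep` (for `z.1 ∈ A` with
`a = z.1`, `b = z.2`; otherwise with the roles exchanged, `Set.pair_comm`). Every edge comes from at
most 2 ordered pairs (`Finset.card_le_mul_card_image` exactly as at the end of `main_ineq`), and
`numMet G L` is the `ncard` of a finite set.
-/

set_option autoImplicit false

namespace Pool.Agent.H93.EL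

open Finset Pool.Agent.H68 Pool.Agent.H56.Elss
open scoped Classical

private theorem Lin_mem_ord {G : GeomHyp 2 2} {z : Pt 2 × Pt 2} :
    z ∈ ord G ↔ (z.1 ∈ G.V ∧ z.2 ∈ G.V ∧ z.1 ≠ z.2) ∧ ({z.1, z.2} : Finset (Pt 2)) ∈ G.E := by
  unfold ord
  rw [mem_filter, mem_offDiag]

theorem ord_card (G : GeomHyp 2 2) : (ord G).card = 2 * G.E.card := by
  have hmap : ∀ z ∈ ord G, ({z.1, z.2} : Finset (Pt 2)) ∈ G.E :=
    fun z hz => (Lin_mem_ord.1 hz).2
  have h := card_eq_sum_card_fiberwise (f := fun z : Pt 2 × Pt 2 => ({z.1, z.2} : Finset (Pt 2)))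
    (s := ord G) (t := G.E) hmap
  rw [h]
  have h2 : ∀ e ∈ G.E,
      ((ord G).filter fun z => ({z.1, z.2} : Finset (Pt 2)) = e).card = 2 := by
    intro e he
    obtain ⟨x, y, hxy, rfl⟩ := card_eq_two.1 (G.card_eq e he)
    have hsub := G.subV _ he
    have hxV : x ∈ G.V := hsub (by simp)
    have hyV : y ∈ G.V := hsub (by simp)
    have h3 : ((ord G).filter fun z => ({z.1, z.2} : Finset (Pt 2)) = {x, y}) =
        {(x, y), (y, x)} := by
      ext ⟨a, b⟩
      rw [mem_filter, mem_insert, mem_singleton, Lin_mem_ord]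
      constructor
      · rintro ⟨⟨⟨-, -, hab⟩, -⟩, h4⟩
        have ha : a ∈ ({x, y} : Finset (Pt 2)) := by rw [← h4]; simp
        have hb : b ∈ ({x, y} : Finset (Pt 2)) := by rw [← h4]; simp
        rw [mem_insert, mem_singleton] at ha hb
        rcases ha with ha | ha <;> rcases hb with hb | hb
        · exact absurd (ha.trans hb.symm) hab
        · exact Or.inl (Prod.ext ha hb)
        · exact Or.inr (Prod.ext ha hb)
        · exact absurd (ha.trans hb.symm) hab
      · rintro (h4 | h4)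
        · obtain ⟨rfl, rfl⟩ := Prod.mk.inj h4
          exact ⟨⟨⟨hxV, hyV, hxy⟩, he⟩, rfl⟩
        · obtain ⟨rfl, rfl⟩ := Prod.mk.inj h4
          refine ⟨⟨⟨hyV, hxV, hxy.symm⟩, ?_⟩, pair_comm _ _⟩
          show ({a, b} : Finset (Pt 2)) ∈ G.E
          rw [pair_comm]
          exact he
    rw [h3, card_pair]
    intro h4
    exact hxy (Prod.mk.inj h4).1
  rw [sum_congr rfl h2, sum_const, smul_eq_mul, mul_comm]

theorem cut_line (G : GeomHyp 2 2) {A : Finset (Pt 2)} (hA : IsCut G.V A) :
    ∃ L : AffineSubspace ℝ (Pt 2), IsFlat 1 L ∧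
      ((ord G).filter fun z => Sep A z.1 z.2).card ≤ 2 * numMet G L := by
  obtain ⟨hAV, a, b, c, hab, hlt, hgt⟩ := hA
  obtain ⟨q, x, hqx, hd⟩ := line_of a b c hab
  refine ⟨line[ℝ, q, x], isFlat_line hqx, ?_⟩
  have hfin : {e : Finset (Pt 2) | e ∈ G.E ∧ Meets (line[ℝ, q, x]) e}.Finite :=
    G.E.finite_toSet.subset (fun e he => he.1)
  have h1 := card_le_mul_card_image (f := fun z : Pt 2 × Pt 2 => ({z.1, z.2} : Finset (Pt 2)))
    ((ord G).filter fun z => Sep A z.1 z.2) 2 ?_
  · refine h1.trans ?_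
    apply Nat.mul_le_mul_left
    rw [← Set.ncard_coe_finset]
    apply Set.ncard_le_ncard _ hfin
    intro e he
    rw [mem_coe, mem_image] at he
    obtain ⟨z, hz, rfl⟩ := he
    rw [mem_filter, Lin_mem_ord] at hz
    obtain ⟨⟨⟨hz1, hz2, -⟩, hzE⟩, hs⟩ := hz
    refine ⟨hzE, ?_⟩
    unfold Meets
    rw [coe_insert, coe_singleton]
    have hpos : ∀ p ∈ A, 0 < det2 q x p := by
      intro p hp
      rw [hd]
      have := hlt p hp
      linarith
    have hneg : ∀ p ∈ G.V, p ∉ A → ¬ 0 < det2 q x p := by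
      intro p hp hpA
      rw [hd]
      have := hgt p hp hpA
      linarith
    unfold Sep at hs
    by_cases h2 : z.1 ∈ A
    · have h3 : z.2 ∉ A := fun h3 => hs ⟨fun _ => h3, fun _ => h2⟩
      exact meets_of_sep hqx ⟨hpos _ h2, hneg _ hz2 h3⟩
    · have h3 : z.2 ∈ A := by
        by_contra h3
        exact hs ⟨fun h => absurd h h2, fun h => absurd h h3⟩
      rw [Set.pair_comm z.1 z.2]
      exact meets_of_sep hqx ⟨hpos _ h3, hneg _ hz1 h2⟩
  · intro e he
    rw [mem_image] at he
    obtain ⟨z, hz, rfl⟩ := he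
    calc _ ≤ ({z, z.swap} : Finset (Pt 2 × Pt 2)).card := by
          apply card_le_card
          rintro ⟨u, v⟩ hw
          rw [mem_filter] at hw
          have hwA := (Lin_mem_ord.1 (mem_filter.1 hw.1).1).1.2.2
          have h2 := hw.2
          simp only at h2
          have hx : u ∈ ({z.1, z.2} : Finset (Pt 2)) := by rw [← h2]; simp
          have hy : v ∈ ({z.1, z.2} : Finset (Pt 2)) := by rw [← h2]; simp
          rw [mem_insert, mem_singleton] at hx hy
          rw [mem_insert, mem_singleton]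
          rcases hx with hx | hx <;> rcases hy with hy | hy
          · exact absurd (hx.trans hy.symm) hwA
          · exact Or.inl (Prod.ext hx hy)
          · exact Or.inr (Prod.ext hx hy)
          · exact absurd (hx.trans hy.symm) hwA
      _ ≤ 2 := card_le_two

theorem cut_le (G : GeomHyp 2 2) {A : Finset (Pt 2)} (hA : IsCut G.V A) {M : ℕ} (hM : Bd G M) :
    ((ord G).filter fun z => Sep A z.1 z.2).card ≤ 2 * M := by
  obtain ⟨L, hL, h⟩ := cut_line G hA
  exact h.trans (Nat.mul_le_mul_left 2 (hM L hL))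

end Pool.Agent.H93.EL
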