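import Mathlib

/-!
# Module SizA (70 lines): balanced sizes

PROOF. `q = n / (2 p)`, `r = n % (2 p)`, `z = List.replicate r (q + 1) ++ List.replicate (2 p - r) q`,
a list of length `2 p` with sum `r (q + 1) + (2 p - r) q = n`. `la = z.take p`, `lb = z.drop p`
(`List.take_append_drop`, `List.sum_append`, `List.length_take`, `List.length_drop`).
`∑ z (z - 1) = r (q + 1) q + (2 p - r) q (q - 1)`, and as real numbers, with `n = 2 p q + r`:
`∑ z² = n² / (2 p) + r (2 p - r) / (2 p) ≤ n² / (2 p) + p / 2` (`r (2 p - r) ≤ p²`).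
(`z (z - 1) = z² - z` also for `z = 0` in `ℕ`.)
-/

set_option autoImplicit false

namespace Pool.Agent.H93.EL

private theorem SizA_cast (q : ℕ) : ((q * (q - 1) : ℕ) : ℝ) = (q : ℝ) ^ 2 - q := by
  rcases Nat.eq_zero_or_pos q with h | h
  · subst h
    norm_num
  · rw [Nat.cast_mul, Nat.cast_sub h]
    push_cast
    ring

theorem sizesA (n p : ℕ) (hp : 1 ≤ p) : ∃ la lb : List ℕ, la.length = p ∧ lb.length = p ∧
    la.sum + lb.sum = n ∧
    (((la.map fun a => a * (a - 1)).sum + (lb.map fun b => b * (b - 1)).sum : ℕ) : ℝ) ≤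
      (n : ℝ) ^ 2 / (2 * p) + p / 2 - n := by
  obtain ⟨q, hq⟩ : ∃ q, q = n / (2 * p) := ⟨_, rfl⟩
  obtain ⟨r, hr⟩ : ∃ r, r = n % (2 * p) := ⟨_, rfl⟩
  have hrp : r < 2 * p := by
    rw [hr]
    exact Nat.mod_lt _ (by omega)
  have hn : 2 * p * q + r = n := by
    rw [hq, hr]
    exact Nat.div_add_mod n (2 * p)
  obtain ⟨k, hk⟩ : ∃ k, r + k = 2 * p := ⟨2 * p - r, by omega⟩
  obtain ⟨z, hz⟩ : ∃ z : List ℕ, z = List.replicate r (q + 1) ++ List.replicate k q := ⟨_, rfl⟩
  have hzl : z.length = 2 * p := by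
    rw [hz, List.length_append, List.length_replicate, List.length_replicate, hk]
  have hzs : z.sum = n := by
    rw [hz, List.sum_append, List.sum_replicate, List.sum_replicate, ← hn, ← hk]
    simp only [smul_eq_mul]
    ring
  refine ⟨z.take p, z.drop p, ?_, ?_, ?_, ?_⟩
  · rw [List.length_take, hzl]
    omega
  · rw [List.length_drop, hzl]
    omega
  · rw [← List.sum_append, List.take_append_drop, hzs]
  · have h1 : ((z.take p).map fun a => a * (a - 1)).sum + ((z.drop p).map fun b => b * (b - 1)).sum =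
        r * ((q + 1) * (q + 1 - 1)) + k * (q * (q - 1)) := by
      rw [← List.sum_append, ← List.map_append, List.take_append_drop, hz, List.map_append,
        List.sum_append, List.map_replicate, List.map_replicate, List.sum_replicate,
        List.sum_replicate]
      simp only [smul_eq_mul]
    rw [h1, Nat.cast_add, Nat.cast_mul r, Nat.cast_mul k, SizA_cast, SizA_cast]
    have hp' : (0 : ℝ) < p := by exact_mod_cast hp
    have e1 : (r : ℝ) + k = 2 * p := by exact_mod_cast hk
    have e2 : (n : ℝ) = 2 * p * q + r := by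
      rw [← hn]
      push_cast
      ring
    have e3 : (k : ℝ) = 2 * p - r := by linarith
    have e4 : (n : ℝ) ^ 2 / (2 * p) + p / 2 - n -
        ((r : ℝ) * (((q + 1 : ℕ) : ℝ) ^ 2 - ((q + 1 : ℕ) : ℝ)) + (k : ℝ) * ((q : ℝ) ^ 2 - q)) =
        (r - p) ^ 2 / (2 * p) := by
      rw [e2, e3]
      push_cast
      field_simp
      ring
    have e5 : (0 : ℝ) ≤ (r - p) ^ 2 / (2 * p) := by positivity
    linarith

end Pool.Agent.H93.EL
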