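import Pool.Agent.H93.EL.TreA
import Pool.Agent.H93.EL.SizA
import Pool.Agent.H93.EL.Lin

/-!
# Module CntA (100 lines): the bound for `x = 1 / p`

PROOF. `cover`: every ordered pair in `ord G` is separated by a member of `l` or in `uns l G.V`
(`ord G ⊆ G.V.offDiag`); induction on `l` (or `Finset.card_biUnion_le`) and `cut_le`:
`2 m ≤ 2 M l.length + (uns l G.V).card` with `ord_card`.
`boundA`: `ε` from `exists_frame`; `la`, `lb` from `sizesA`; `X` from `vert` with `h = la.sum`; `P = X`,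
`Q = G.V \ X`, `Q.card = n - la.sum = lb.sum`; `l` from `treeA`; `l₀ = X :: l`, of length `p`.
`uns l₀ G.V ⊆ uns l X ∪ uns l (G.V \ X)` (a pair not separated by `X` is in `X` or in `G.V \ X`).
So `2 m ≤ 2 p M + n² / (2 p) + p / 2 - n`; divide by `2 p`.
-/

set_option autoImplicit false

namespace Pool.Agent.H93.EL

open Finset Pool.Agent.H68
open scoped Classical

private theorem cntA_count (K : ℕ) (l : List (Finset (Pt 2))) :
    ∀ S : Finset (Pt 2 × Pt 2), (∀ A ∈ l, (S.filter fun z => Sep A z.1 z.2).card ≤ K) →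
      S.card ≤ l.length * K + (S.filter fun z => ∀ A ∈ l, ¬ Sep A z.1 z.2).card := by
  induction l with
  | nil =>
    intro S _
    have : (S.filter fun z => ∀ A ∈ ([] : List (Finset (Pt 2))), ¬ Sep A z.1 z.2) = S := by
      apply Finset.filter_true_of_mem
      intro z _ A hA
      simp at hA
    rw [this]
    simp
  | cons A l ih =>
    intro S h
    have h1 := Finset.card_filter_add_card_filter_not (s := S) (fun z => Sep A z.1 z.2)
    have h2 : (S.filter fun z => Sep A z.1 z.2).card ≤ K := h A (by simp)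
    have h3 := ih (S.filter fun z => ¬ Sep A z.1 z.2) (by
      intro B hB
      refine le_trans (Finset.card_le_card ?_) (h B (by simp [hB]))
      intro z hz
      simp only [Finset.mem_filter] at hz ⊢
      exact ⟨hz.1.1, hz.2⟩)
    have h4 : ((S.filter fun z => ¬ Sep A z.1 z.2).filter fun z => ∀ B ∈ l, ¬ Sep B z.1 z.2) =
        S.filter fun z => ∀ B ∈ A :: l, ¬ Sep B z.1 z.2 := by
      ext z
      simp only [Finset.mem_filter, List.mem_cons, forall_eq_or_imp]
      tauto
    rw [h4] at h3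
    simp only [List.length_cons]
    have h5 : (l.length + 1) * K = l.length * K + K := by ring
    rw [h5]
    omega

theorem cover (G : GeomHyp 2 2) {M : ℕ} (hM : Bd G M) (l : List (Finset (Pt 2)))
    (hl : ∀ A ∈ l, IsCut G.V A) : 2 * G.E.card ≤ 2 * (l.length * M) + (uns l G.V).card := by
  have h1 := cntA_count (2 * M) l (ord G) (fun A hA => cut_le G (hl A hA) hM)
  rw [ord_card] at h1
  have h2 : ((ord G).filter fun z => ∀ A ∈ l, ¬ Sep A z.1 z.2).card ≤ (uns l G.V).card := by
    apply Finset.card_le_card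
    intro z hz
    simp only [ord, uns, Finset.mem_filter] at hz ⊢
    exact ⟨hz.1.1, hz.2⟩
  have h3 : l.length * (2 * M) = 2 * (l.length * M) := by ring
  rw [h3] at h1
  omega

theorem boundA (G : GeomHyp 2 2) {M : ℕ} (hM : Bd G M) {n m p : ℕ} (hn : G.V.card = n)
    (hm : G.E.card = m) (hp : 1 ≤ p) :
    (m : ℝ) / p - (n : ℝ) ^ 2 / (4 * p ^ 2) + n / (2 * p) - 1 / 4 ≤ M := by
  obtain ⟨ε, hF⟩ := exists_frame G
  obtain ⟨la, lb, hla, hlb, hsum, hR⟩ := sizesA n p hp
  obtain ⟨X, hXV, hXc, hXcut, hXlt⟩ := vert hF (h := la.sum) (by rw [hn]; omega)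
  have hla0 : la ≠ [] := by
    intro h
    rw [h] at hla
    simp at hla
    omega
  have hQc : (G.V \ X).card = lb.sum := by
    rw [Finset.card_sdiff_of_subset hXV, hXc, hn]
    omega
  obtain ⟨l, hll, hlcut, hlP, hlQ⟩ := treeA hF la lb X (G.V \ X) hXV Finset.sdiff_subset
    (fun p hp q hq => hXlt p hp q (Finset.mem_sdiff.mp hq).1 (Finset.mem_sdiff.mp hq).2)
    (hla.trans hlb.symm) hla0 hXc.symm hQc.symm
  have h1 := cover G hM (X :: l) (by
    intro A hA
    rcases List.mem_cons.mp hA with h | h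
    · rw [h]; exact hXcut
    · exact hlcut A h)
  have h2 : (uns (X :: l) G.V).card ≤ (uns l X).card + (uns l (G.V \ X)).card := by
    refine le_trans (Finset.card_le_card ?_) (Finset.card_union_le _ _)
    intro z hz
    simp only [uns, Finset.mem_filter, Finset.mem_offDiag, List.mem_cons, forall_eq_or_imp,
      Finset.mem_union, Finset.mem_sdiff, Sep, not_not] at hz ⊢
    obtain ⟨⟨hz1, hz2, hz3⟩, hz4, hz5⟩ := hz
    by_cases hx : z.1 ∈ X
    · left
      exact ⟨⟨hx, hz4.mp hx, hz3⟩, hz5⟩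
    · right
      exact ⟨⟨⟨hz1, hx⟩, ⟨hz2, fun h => hx (hz4.mpr h)⟩, hz3⟩, hz5⟩
  have hlen : (X :: l).length = p := by
    rw [List.length_cons, hll, hla]
  rw [hlen, hm] at h1
  have h3 : 2 * m ≤ 2 * (p * M) +
      ((la.map fun a => a * (a - 1)).sum + (lb.map fun b => b * (b - 1)).sum) := by
    omega
  have h4 : (2 * m : ℝ) ≤ 2 * (p * M) + ((n : ℝ) ^ 2 / (2 * p) + p / 2 - n) := by
    have h5 : (2 * m : ℝ) ≤ 2 * (p * M) +
      (((la.map fun a => a * (a - 1)).sum + (lb.map fun b => b * (b - 1)).sum : ℕ) : ℝ) := by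
      exact_mod_cast h3
    linarith
  have hp0 : (0 : ℝ) < p := by
    have : (1 : ℝ) ≤ p := by exact_mod_cast hp
    linarith
  have h6 : (2 * p : ℝ) * ((m : ℝ) / p - (n : ℝ) ^ 2 / (4 * p ^ 2) + n / (2 * p) - 1 / 4) ≤
      2 * p * M := by
    have h7 : (2 * p : ℝ) * ((m : ℝ) / p - (n : ℝ) ^ 2 / (4 * p ^ 2) + n / (2 * p) - 1 / 4) =
        2 * m - ((n : ℝ) ^ 2 / (2 * p) + p / 2 - n) := by
      field_simp
      ring
    rw [h7]
    linarith
  exact le_of_mul_le_mul_left h6 (by positivity)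

end Pool.Agent.H93.EL
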