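import Mathlib

/-!
# Module SizB (70 lines): the sum of squares for the halving lines

PROOF. As real numbers put `μ = n / N` and `S = zs.sum`. For `z ∈ {a, a + 1}` is `|z - μ| ≤ 1` since
`a ≤ μ < a + 1` (`a = n / N`). So `∑ (z - μ)² ≤ N - 1` (induction on the list: for every list of numbers
in `{a, a + 1}` is `∑ (z - μ)² ≤ length` and `|∑ (z - μ)| ≤ length`), and
`n - S - μ = (N - 1) μ - S = -∑ (z - μ)` has absolute value at most `N - 1`. Finally
`∑ z² + (n - S)² = n² / N + ∑ (z - μ)² + (n - S - μ)² ≤ n² / N + (N - 1) + (N - 1)²` where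
`∑ (z - μ)² = ∑ z² - 2 μ S + (N - 1) μ²`.
-/

set_option autoImplicit false

namespace Pool.Agent.H93.EL

private lemma SizB_aux (a : ℕ) (μ : ℝ) (h0 : (a : ℝ) ≤ μ) (h1 : μ ≤ (a : ℝ) + 1) :
    ∀ zs : List ℕ, (∀ z ∈ zs, z = a ∨ z = a + 1) →
      (((zs.map fun z => z ^ 2).sum : ℕ) : ℝ) - 2 * μ * ((zs.sum : ℕ) : ℝ)
          + (zs.length : ℝ) * μ ^ 2 ≤ zs.length ∧
        ((zs.sum : ℕ) : ℝ) - zs.length * μ ≤ zs.length ∧
        -(zs.length : ℝ) ≤ ((zs.sum : ℕ) : ℝ) - zs.length * μ := by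
  intro zs
  induction zs with
  | nil => intro _; simp
  | cons z zs ih =>
    intro hz
    obtain ⟨i1, i2, i3⟩ := ih (fun w hw => hz w (List.mem_cons_of_mem _ hw))
    have hz0 := hz z (List.mem_cons_self ..)
    have e1 : (z : ℝ) = a ∨ (z : ℝ) = a + 1 := by
      rcases hz0 with h | h
      · left; exact_mod_cast h
      · right; exact_mod_cast h
    have e2 : (z : ℝ) - μ ≤ 1 ∧ -1 ≤ (z : ℝ) - μ := by
      rcases e1 with h | h
      · constructor <;> linarith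
      · constructor <;> linarith
    have e3 : ((z : ℝ) - μ) ^ 2 ≤ 1 := by
      nlinarith [e2.1, e2.2]
    simp only [List.map_cons, List.sum_cons, List.length_cons]
    push_cast
    refine ⟨?_, ?_, ?_⟩
    · push_cast at i1
      nlinarith [i1, e3]
    · push_cast at i2
      linarith [i2, e2.1]
    · push_cast at i3
      linarith [i3, e2.2]

theorem sizesB (n N : ℕ) (hN : 1 ≤ N) (zs : List ℕ) (hl : zs.length = N - 1)
    (hz : ∀ z ∈ zs, z = n / N ∨ z = n / N + 1) (hs : zs.sum ≤ n) :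
    (((zs.map fun z => z ^ 2).sum + (n - zs.sum) ^ 2 : ℕ) : ℝ) ≤
      (n : ℝ) ^ 2 / N + N * (N - 1) := by
  classical
  have hN0 : (0 : ℝ) < N := by exact_mod_cast hN
  have h0 : ((n / N : ℕ) : ℝ) ≤ (n : ℝ) / N := Nat.cast_div_le
  have h1 : (n : ℝ) / N ≤ ((n / N : ℕ) : ℝ) + 1 := by
    rw [div_le_iff₀ hN0]
    have := Nat.lt_div_mul_add (a := n) (b := N) hN
    have h2 : n ≤ (n / N + 1) * N := by nlinarith [this]
    exact_mod_cast h2
  obtain ⟨i1, i2, i3⟩ := SizB_aux (n / N) ((n : ℝ) / N) h0 h1 zs hz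
  have hlen : (zs.length : ℝ) = (N : ℝ) - 1 := by
    rw [hl, Nat.cast_sub hN]; simp
  rw [hlen] at i1 i2 i3
  have hcast : (((zs.map fun z => z ^ 2).sum + (n - zs.sum) ^ 2 : ℕ) : ℝ)
      = (((zs.map fun z => z ^ 2).sum : ℕ) : ℝ) + ((n : ℝ) - ((zs.sum : ℕ) : ℝ)) ^ 2 := by
    rw [Nat.cast_add, Nat.cast_pow, Nat.cast_sub hs]
  rw [hcast]
  generalize (((zs.map fun z => z ^ 2).sum : ℕ) : ℝ) = Q at i1 ⊢
  generalize ((zs.sum : ℕ) : ℝ) = S at i1 i2 i3 ⊢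
  have hn : (n : ℝ) = N * ((n : ℝ) / N) := by field_simp
  have hq : (n : ℝ) ^ 2 / N = N * ((n : ℝ) / N) ^ 2 := by field_simp
  rw [hq]
  generalize (n : ℝ) / N = μ at i1 i2 i3 hn ⊢
  rw [hn]
  have hD : (S - ((N : ℝ) - 1) * μ) ^ 2 ≤ ((N : ℝ) - 1) ^ 2 := by
    apply sq_le_sq'
    · linarith
    · linarith
  nlinarith [i1, hD]

end Pool.Agent.H93.EL
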