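import Pool.Agent.H93.EL.TreB
import Pool.Agent.H93.EL.SizB
import Pool.Agent.H93.EL.Lin

/-!
# Module CntB (150 lines): the bound for `x = 1 - 1 / N`

PROOF. `sep_count`: the pairs separated by `A ⊆ V` are `A ×ˢ (V \ A) ∪ (V \ A) ×ˢ A`, disjoint.
`dcount`: for `z ∈ G.V.offDiag` let `c z` be the number of members of the list `l` which separate `z`
(`(l.filter fun A => Sep A z.1 z.2).length` or `l.countP`). `∑_(A ∈ l) (number of pairs of ord G
separated by A) = ∑_(z ∈ ord G) c z = ∑_(z ∈ offDiag) c z - ∑_(z ∈ offDiag \ ord G) c z`. The first sum is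
`l.length * 2 h (n - h)` by `sep_count`. For `z ∈ offDiag \ ord G` is `c z ≤ l.length - 1`, or
`c z = l.length` and `z ∈ bad l G.V`. `(offDiag \ ord G).card = n (n - 1) - 2 m`. All members of `l` are
cuts: the left side is at most `l.length * 2 M` (`cut_le`). In the form without subtraction:
`l.length * (2 * (h * (n - h))) ≤ l.length * (2 * M) + (l.length - 1) * (n * (n - 1) - 2 * m) +
(bad l G.V).card`.
`boundB`: `ε` from `exists_frame`; `h = n / 2`; `X` from `vert`; `l`, `zs` from `treeB` with `P = G.V`,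
`k = N - 1`, `a = n / N`; the list `X :: l` has length `N`. The condition `(N - 1) (a + 1) ≤ n` follows from
`N (N - 1) ≤ n`: then `N - 1 ≤ a` (`Nat.le_div_iff_mul_le`), and `(N - 1)(a + 1) = (N - 1) a + (N - 1) ≤
(N - 1) a + a = N a ≤ n`. `sizesB` gives `(bad ..).card ≤ n² / (2 N) + N (N - 1) / 2`. As real numbers
`h (n - h) ≥ (n² - 1) / 4`. So
`2 N M ≥ N (n² - 1) / 2 - (N - 1) (n² - n - 2 m) - n² / (2 N) - N (N - 1) / 2`; divide by `2 N`:
`M ≥ x m - x² n² / 4 + x n / 2 - N / 4`, `x = 1 - 1 / N`.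
-/

set_option autoImplicit false

namespace Pool.Agent.H93.EL

open Finset Pool.Agent.H68
open scoped Classical

theorem sep_count {V A : Finset (Pt 2)} (hA : A ⊆ V) :
    (V.offDiag.filter fun z => Sep A z.1 z.2).card = 2 * (A.card * (V.card - A.card)) := by
  have h : (V.offDiag.filter fun z => Sep A z.1 z.2) = A ×ˢ (V \ A) ∪ (V \ A) ×ˢ A := by
    ext z
    simp only [mem_filter, mem_offDiag, mem_union, mem_product, mem_sdiff, Sep]
    constructor
    · rintro ⟨⟨h1, h2, h3⟩, h4⟩
      tauto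
    · rintro (⟨h1, h2, h3⟩ | ⟨⟨h1, h2⟩, h3⟩)
      · refine ⟨⟨hA h1, h2, ?_⟩, by tauto⟩
        intro he
        rw [he] at h1
        exact h3 h1
      · refine ⟨⟨h1, hA h3, ?_⟩, by tauto⟩
        intro he
        rw [he] at h2
        exact h2 h3
  rw [h, card_union_of_disjoint, card_product, card_product, card_sdiff_of_subset hA]
  · ring
  · rw [disjoint_left]
    rintro z hz1 hz2
    simp only [mem_product, mem_sdiff] at hz1 hz2
    exact hz2.1.2 hz1.1

private theorem cntB_sum_bad (D : Finset (Pt 2 × Pt 2)) (l : List (Finset (Pt 2))) :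
    (l.map fun A => (D.filter fun z => Sep A z.1 z.2).card).sum + D.card ≤
      l.length * D.card + (D.filter fun z => ∀ A ∈ l, Sep A z.1 z.2).card := by
  induction l with
  | nil =>
    have : (D.filter fun z => ∀ A ∈ ([] : List (Finset (Pt 2))), Sep A z.1 z.2) = D := by
      apply Finset.filter_true_of_mem
      intro z _ A hA
      simp at hA
    rw [this]
    simp
  | cons A l ih =>
    have h1 := card_union_add_card_inter (D.filter fun z => Sep A z.1 z.2)
      (D.filter fun z => ∀ B ∈ l, Sep B z.1 z.2)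
    have h2 : ((D.filter fun z => Sep A z.1 z.2) ∪
        (D.filter fun z => ∀ B ∈ l, Sep B z.1 z.2)).card ≤ D.card :=
      card_le_card (union_subset (filter_subset _ _) (filter_subset _ _))
    have h3 : ((D.filter fun z => Sep A z.1 z.2) ∩
        (D.filter fun z => ∀ B ∈ l, Sep B z.1 z.2)) =
        D.filter fun z => ∀ B ∈ A :: l, Sep B z.1 z.2 := by
      ext z
      simp only [mem_inter, mem_filter, List.mem_cons, forall_eq_or_imp]
      tauto
    rw [h3] at h1
    simp only [List.map_cons, List.sum_cons, List.length_cons]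
    have h5 : (l.length + 1) * D.card = l.length * D.card + D.card := by ring
    rw [h5]
    omega

private theorem cntB_sum_add (T S : Finset (Pt 2 × Pt 2)) (hST : S ⊆ T)
    (l : List (Finset (Pt 2))) :
    (l.map fun A => (T.filter fun z => Sep A z.1 z.2).card).sum =
      (l.map fun A => (S.filter fun z => Sep A z.1 z.2).card).sum +
        (l.map fun A => ((T \ S).filter fun z => Sep A z.1 z.2).card).sum := by
  induction l with
  | nil => simp
  | cons A l ih =>
    simp only [List.map_cons, List.sum_cons]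
    rw [ih]
    have h1 : (T.filter fun z => Sep A z.1 z.2).card =
        (S.filter fun z => Sep A z.1 z.2).card +
          ((T \ S).filter fun z => Sep A z.1 z.2).card := by
      rw [← card_union_of_disjoint]
      · congr 1
        rw [← filter_union]
        congr 1
        exact (union_sdiff_of_subset hST).symm
      · exact disjoint_filter_filter disjoint_sdiff
    omega

private theorem cntB_sum_le (S : Finset (Pt 2 × Pt 2)) (K : ℕ) (l : List (Finset (Pt 2)))
    (h : ∀ A ∈ l, (S.filter fun z => Sep A z.1 z.2).card ≤ K) :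
    (l.map fun A => (S.filter fun z => Sep A z.1 z.2).card).sum ≤ l.length * K := by
  induction l with
  | nil => simp
  | cons A l ih =>
    simp only [List.map_cons, List.sum_cons, List.length_cons]
    have h1 := h A (by simp)
    have h2 := ih (fun B hB => h B (by simp [hB]))
    have h5 : (l.length + 1) * K = l.length * K + K := by ring
    rw [h5]
    omega

private theorem cntB_sum_ge (S : Finset (Pt 2 × Pt 2)) (K : ℕ) (l : List (Finset (Pt 2)))
    (h : ∀ A ∈ l, K ≤ (S.filter fun z => Sep A z.1 z.2).card) :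
    l.length * K ≤ (l.map fun A => (S.filter fun z => Sep A z.1 z.2).card).sum := by
  induction l with
  | nil => simp
  | cons A l ih =>
    simp only [List.map_cons, List.sum_cons, List.length_cons]
    have h1 := h A (by simp)
    have h2 := ih (fun B hB => h B (by simp [hB]))
    have h5 : (l.length + 1) * K = l.length * K + K := by ring
    rw [h5]
    omega

theorem dcount (G : GeomHyp 2 2) {M h : ℕ} (hM : Bd G M) (l : List (Finset (Pt 2)))
    (hl : ∀ A ∈ l, IsCut G.V A ∧ A.card = h) (hl0 : l ≠ []) :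
    l.length * (2 * (h * (G.V.card - h))) + 2 * G.E.card * (l.length - 1) ≤ l.length * (2 * M) +
      (l.length - 1) * (G.V.card * (G.V.card - 1)) + (bad l G.V).card := by
  have hsub : ord G ⊆ G.V.offDiag := filter_subset _ _
  have h1 := cntB_sum_add G.V.offDiag (ord G) hsub l
  have h2 := cntB_sum_bad (G.V.offDiag \ ord G) l
  have h3 := cntB_sum_le (ord G) (2 * M) l (fun A hA => cut_le G (hl A hA).1 hM)
  have h4 := cntB_sum_ge G.V.offDiag (2 * (h * (G.V.card - h))) l (fun A hA => by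
    rw [sep_count (hl A hA).1.1, (hl A hA).2])
  have h5 : ((G.V.offDiag \ ord G).filter fun z => ∀ A ∈ l, Sep A z.1 z.2).card ≤
      (bad l G.V).card := by
    apply card_le_card
    intro z hz
    simp only [bad, mem_filter, mem_sdiff] at hz ⊢
    exact ⟨hz.1.1, hz.2⟩
  have h6 : (G.V.offDiag \ ord G).card + 2 * G.E.card = G.V.card * (G.V.card - 1) := by
    rw [← ord_card, card_sdiff_add_card_eq_card hsub, offDiag_card, Nat.mul_sub, Nat.mul_one]
  obtain ⟨L, hL⟩ : ∃ L, l.length = L + 1 :=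
    Nat.exists_eq_succ_of_ne_zero (fun hh => hl0 (List.length_eq_zero_iff.mp hh))
  rw [hL] at h2 h3 h4 ⊢
  rw [← h6, Nat.add_sub_cancel]
  generalize (G.V.offDiag \ ord G).card = D at *
  generalize (l.map fun A => ((G.V.offDiag).filter fun z => Sep A z.1 z.2).card).sum = s1 at *
  generalize (l.map fun A => ((ord G).filter fun z => Sep A z.1 z.2).card).sum = s2 at *
  generalize (l.map fun A => ((G.V.offDiag \ ord G).filter fun z => Sep A z.1 z.2).card).sum = s3
    at *
  have h7 : (L + 1) * D = L * D + D := by ring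
  have h8 : L * (D + 2 * G.E.card) = L * D + 2 * G.E.card * L := by ring
  rw [h7] at h2
  rw [h8]
  omega

theorem boundB (G : GeomHyp 2 2) {M : ℕ} (hM : Bd G M) {n m N : ℕ} (hn : G.V.card = n)
    (hm : G.E.card = m) (hN : 1 ≤ N) (hNn : N * (N - 1) ≤ n) :
    (1 - 1 / (N : ℝ)) * m - (1 - 1 / (N : ℝ)) ^ 2 * (n : ℝ) ^ 2 / 4 + (1 - 1 / (N : ℝ)) * n / 2 -
      N / 4 ≤ M := by
  obtain ⟨ε, hF⟩ := exists_frame G
  obtain ⟨X, hXV, hXc, hXcut, hXlt⟩ := vert hF (h := n / 2) (by rw [hn]; omega)
  have hk : (N - 1) * (n / N + 1) ≤ G.V.card := by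
    rw [hn]
    have h1 : N - 1 ≤ n / N := by
      rw [Nat.le_div_iff_mul_le (by omega)]
      calc (N - 1) * N = N * (N - 1) := by ring
        _ ≤ n := hNn
    have h2 : (N - 1) * (n / N + 1) = (N - 1) * (n / N) + (N - 1) := by ring
    have h3 : N * (n / N) ≤ n := Nat.mul_div_le n N
    have h4 : N * (n / N) = (N - 1) * (n / N) + n / N := by
      obtain ⟨N', rfl⟩ : ∃ N', N = N' + 1 := ⟨N - 1, by omega⟩
      rw [Nat.add_sub_cancel]
      ring
    omega
  obtain ⟨l, zs, hll, hzl, hlc, hz, hzs, hbad⟩ := treeB hF hXV hXc hXlt (by rw [hn]; omega)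
    (by rw [hn]; omega) (n / N) (N - 1) G.V (Subset.refl _) hk
  have h1 := dcount G hM (h := n / 2) (X :: l) (by
    intro A hA
    rcases List.mem_cons.mp hA with h | h
    · rw [h]; exact ⟨hXcut, hXc⟩
    · exact hlc A h) (by simp)
  have hlen : (X :: l).length = N := by
    rw [List.length_cons, hll]
    omega
  rw [hn] at hzs hbad
  have h2 := sizesB n N hN zs hzl hz hzs
  rw [hlen, hn, hm] at h1
  have hN1 : (1 : ℝ) ≤ N := by exact_mod_cast hN
  have hN0 : (0 : ℝ) < N := by linarith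
  have h3 : 2 * ((bad (X :: l) G.V).card : ℝ) ≤ (n : ℝ) ^ 2 / N + N * (N - 1) := by
    refine le_trans ?_ h2
    exact_mod_cast hbad
  have h4 : ((n : ℝ) ^ 2 - 1) / 4 ≤ ((n / 2 * (n - n / 2) : ℕ) : ℝ) := by
    rcases Nat.even_or_odd' n with ⟨c, hc | hc⟩
    · have e1 : n / 2 = c := by omega
      have e2 : n - n / 2 = c := by omega
      rw [e2, e1, hc]
      push_cast
      nlinarith
    · have e1 : n / 2 = c := by omega
      have e2 : n - n / 2 = c + 1 := by omega
      rw [e2, e1, hc]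
      push_cast
      nlinarith
  have h5 : (N : ℝ) * (2 * ((n / 2 * (n - n / 2) : ℕ) : ℝ)) + 2 * m * ((N : ℝ) - 1) ≤
      N * (2 * M) + ((N : ℝ) - 1) * (n * ((n : ℝ) - 1)) + ((bad (X :: l) G.V).card : ℝ) := by
    have h6 : ((N * (2 * (n / 2 * (n - n / 2))) + 2 * m * (N - 1) : ℕ) : ℝ) ≤
        ((N * (2 * M) + (N - 1) * (n * (n - 1)) + (bad (X :: l) G.V).card : ℕ) : ℝ) := by
      exact_mod_cast h1
    have h7 : (n : ℝ) * ((n - 1 : ℕ) : ℝ) = n * ((n : ℝ) - 1) := by
      rcases Nat.eq_zero_or_pos n with h0 | h0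
      · rw [h0]; simp
      · rw [Nat.cast_sub h0]; simp
    have h8 : ((N - 1 : ℕ) : ℝ) = (N : ℝ) - 1 := by
      rw [Nat.cast_sub hN]; simp
    rw [Nat.cast_add, Nat.cast_add, Nat.cast_add, Nat.cast_mul, Nat.cast_mul, Nat.cast_mul (2 * m),
      Nat.cast_mul 2 m, Nat.cast_mul N, Nat.cast_mul 2 M, Nat.cast_mul (N - 1), Nat.cast_mul n,
      h7, h8] at h6
    exact_mod_cast h6
  have h9 : (2 * N : ℝ) * ((1 - 1 / (N : ℝ)) * m - (1 - 1 / (N : ℝ)) ^ 2 * (n : ℝ) ^ 2 / 4 +
      (1 - 1 / (N : ℝ)) * n / 2 - N / 4) ≤ 2 * N * M := by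
    have h10 : (2 * N : ℝ) * ((1 - 1 / (N : ℝ)) * m - (1 - 1 / (N : ℝ)) ^ 2 * (n : ℝ) ^ 2 / 4 +
        (1 - 1 / (N : ℝ)) * n / 2 - N / 4) =
        N * ((n : ℝ) ^ 2 - 1) / 2 + 2 * m * (N - 1) - (N - 1) * (n * (n - 1)) -
          (n : ℝ) ^ 2 / N / 2 - N * (N - 1) / 2 := by
      field_simp
      ring
    rw [h10]
    have h11 : (N : ℝ) * (((n : ℝ) ^ 2 - 1) / 4) ≤ N * ((n / 2 * (n - n / 2) : ℕ) : ℝ) :=
      mul_le_mul_of_nonneg_left h4 hN0.le
    linarith
  exact le_of_mul_le_mul_left h9 (by positivity)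

end Pool.Agent.H93.EL
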