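import Pool.Agent.H93.EL.Old
import Pool.Agent.H93.EL.CntA
import Pool.Agent.H93.EL.CntB
import Pool.Agent.H93.EL.Ark

/-!
# The bounds for the numbers `f^1_{2,2}(m, n)`
-/

set_option autoImplicit false

namespace Pool.Agent.H93.EL

open Finset Pool.Agent.H68 Pool.Agent.H56.Elss

/-- a bound for all geometric graphs is a bound for `f` -/
theorem fv_of {n m : ℕ} (hmn : m ≤ n.choose 2) (B : ℝ)
    (h : ∀ G : GeomHyp 2 2, G.V.card = n → G.E.card = m → ∀ M : ℕ, Bd G M → B ≤ M) :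
    B ≤ (fval 2 2 1 m n : ℝ) := by
  have h1 : ⌈B⌉₊ ≤ fval 2 2 1 m n := by
    apply le_fval (exists_geomHyp (by norm_num) (by norm_num) hmn)
    intro G hG1 hG2
    exact exists_line G _ (fun M hM => h G hG1 hG2 M hM)
  exact (Nat.le_ceil _).trans (by exact_mod_cast h1)

theorem bds {n m : ℕ} (hm1 : 1 ≤ m) (hmn : m ≤ n.choose 2) :
    Bds n m (fval 2 2 1 m n : ℝ) where
  one := hm1
  le := hmn
  A p hp := fv_of hmn _ fun G h1 h2 M hM => boundA G hM h1 h2 hp
  B N hN hNn := fv_of hmn _ fun G h1 h2 M hM => boundB G hM h1 h2 hN hNn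
  O h := old n m hm1 hmn (Or.inl h)

end Pool.Agent.H93.EL
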