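import Pool.Agent.H93.EL.Def

/-!
# Module Chn (90 lines): chains of lower parts; two lower parts in the same direction

PROOF. `low_chain`: induction on `(B \ A).card`. If `(A ∩ P).card = k` take `C = A`. Otherwise
`A ≠ B`, let `x` minimise `gh ε s` on `B \ A` (nonempty, since `(A ∩ P).card < k ≤ (B ∩ P).card`).
`insert x A` is a lower part: let `p ∈ insert x A`, `q ∈ V`, `q ∉ insert x A`. If `p ∈ A` use `hA`. If
`p = x`: for `q ∈ B` is `q ∈ B \ A` and `x` is a minimum; for `q ∉ B` use `hB` for `x ∈ B`. Moreover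
`insert x A ⊆ B` and `(insert x A ∩ P).card ≤ (A ∩ P).card + 1 ≤ k`. Induction.

`low_two`: if not `A ⊆ B` and not `B ⊆ A` take `u ∈ A \ B`, `v ∈ B \ A`. For every `u' ∈ A \ B` and
`v' ∈ B \ A` is `gh u' ≤ gh v'` (`hA`) and `gh v' ≤ gh u'` (`hB`), so all points of `A \ B` and `B \ A` have
the same height `c = gh ε s u`. `{u', u, v} ⊆ V.filter (gh ε s · = c)` has at most 2 elements, so
`A \ B = {u}` and `B \ A = {v}`. Take `C = A ∩ B`.
-/

set_option autoImplicit false

namespace Pool.Agent.H93.EL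

open Finset Pool.Agent.H68
open scoped Classical

theorem low_empty (V : Finset (Pt 2)) (ε s : ℝ) : Low V ε s ∅ :=
  ⟨empty_subset _, fun p hp => absurd hp (notMem_empty p)⟩

theorem low_self (V : Finset (Pt 2)) (ε s : ℝ) : Low V ε s V :=
  ⟨Subset.refl _, fun _ _ _ hq h => absurd hq h⟩

theorem low_chain {V : Finset (Pt 2)} {ε s : ℝ} {A B P : Finset (Pt 2)} (hA : Low V ε s A)
    (hB : Low V ε s B) (hAB : A ⊆ B) {k : ℕ} (h1 : (A ∩ P).card ≤ k) (h2 : k ≤ (B ∩ P).card) :
    ∃ C, Low V ε s C ∧ A ⊆ C ∧ C ⊆ B ∧ (C ∩ P).card = k := by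
  obtain ⟨n, hn⟩ : ∃ n, (B \ A).card = n := ⟨_, rfl⟩
  induction n generalizing A with
  | zero =>
    have h0 : B \ A = ∅ := card_eq_zero.1 hn
    have hBA : B ⊆ A := sdiff_eq_empty_iff_subset.1 h0
    have hE : A = B := Subset.antisymm hAB hBA
    subst hE
    exact ⟨A, hA, Subset.refl _, Subset.refl _, le_antisymm h1 h2⟩
  | succ n ih =>
    by_cases hk : (A ∩ P).card = k
    · exact ⟨A, hA, Subset.refl _, hAB, hk⟩
    have hne : (B \ A).Nonempty := card_pos.1 (by omega)
    obtain ⟨x, hx, hmin⟩ := exists_min_image (B \ A) (gh ε s) hne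
    have hxB := (mem_sdiff.1 hx).1
    have hxA := (mem_sdiff.1 hx).2
    have hlow : Low V ε s (insert x A) := by
      refine ⟨insert_subset (hB.1 hxB) hA.1, ?_⟩
      intro p hp q hq hqn
      have hqA : q ∉ A := fun h => hqn (mem_insert_of_mem h)
      rcases mem_insert.1 hp with hpx | hp
      · rw [hpx]
        by_cases hqB : q ∈ B
        · exact hmin q (mem_sdiff.2 ⟨hqB, hqA⟩)
        · exact hB.2 x hxB q hq hqB
      · exact hA.2 p hp q hq hqA
    have hsub : insert x A ⊆ B := insert_subset hxB hAB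
    have hcard : (insert x A ∩ P).card ≤ (A ∩ P).card + 1 := by
      have hs2 : insert x A ∩ P ⊆ insert x (A ∩ P) := by
        intro y hy
        rcases mem_inter.1 hy with ⟨hy1, hy2⟩
        rcases mem_insert.1 hy1 with hyx | hy1
        · rw [hyx]
          exact mem_insert_self _ _
        · exact mem_insert_of_mem (mem_inter.2 ⟨hy1, hy2⟩)
      exact (card_le_card hs2).trans (card_insert_le _ _)
    have hcard2 : (B \ insert x A).card = n := by
      have he : B \ insert x A = (B \ A).erase x := by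
        ext y
        simp only [mem_sdiff, mem_insert, mem_erase, not_or]
        tauto
      rw [he, card_erase_of_mem hx, hn]
      rfl
    obtain ⟨C, hC1, hC2, hC3, hC4⟩ := ih hlow hsub (by omega) hcard2
    exact ⟨C, hC1, (subset_insert _ _).trans hC2, hC3, hC4⟩

theorem low_two {V : Finset (Pt 2)} {ε s : ℝ} (hF : Frame V ε) {A B : Finset (Pt 2)}
    (hA : Low V ε s A) (hB : Low V ε s B) :
    A ⊆ B ∨ B ⊆ A ∨ ∃ C : Finset (Pt 2), ∃ u v, u ∉ C ∧ v ∉ C ∧ A = insert u C ∧ B = insert v C := by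
  by_cases hAB : A ⊆ B
  · exact Or.inl hAB
  by_cases hBA : B ⊆ A
  · exact Or.inr (Or.inl hBA)
  refine Or.inr (Or.inr ?_)
  obtain ⟨u, huA, huB⟩ := not_subset.1 hAB
  obtain ⟨v, hvB, hvA⟩ := not_subset.1 hBA
  have hle : ∀ u' v', u' ∈ A → u' ∉ B → v' ∈ B → v' ∉ A → gh ε s u' = gh ε s v' := by
    intro u' v' h1 h2 h3 h4
    exact le_antisymm (hA.2 u' h1 v' (hB.1 h3) h4) (hB.2 v' h3 u' (hA.1 h1) h2)
  have huv : u ≠ v := fun h => hvA (h ▸ huA)
  have h2 := hF.two s (gh ε s v)
  have huniq : ∀ w, w ∈ V → gh ε s w = gh ε s v → w = u ∨ w = v := by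
    intro w hw hwc
    by_contra hcon
    rw [not_or] at hcon
    have hsub : ({w, u, v} : Finset (Pt 2)) ⊆ V.filter fun p => gh ε s p = gh ε s v := by
      intro y hy
      rw [mem_insert, mem_insert, mem_singleton] at hy
      rw [mem_filter]
      rcases hy with hy | hy | hy
      · rw [hy]
        exact ⟨hw, hwc⟩
      · rw [hy]
        exact ⟨hA.1 huA, hle _ _ huA huB hvB hvA⟩
      · rw [hy]
        exact ⟨hB.1 hvB, rfl⟩
    have h3 : ({w, u, v} : Finset (Pt 2)).card = 3 := by
      rw [card_eq_three]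
      exact ⟨w, u, v, hcon.1, hcon.2, huv, rfl⟩
    have h4 := card_le_card hsub
    omega
  refine ⟨A ∩ B, u, v, fun h => huB (mem_inter.1 h).2, fun h => hvA (mem_inter.1 h).1, ?_, ?_⟩
  · ext y
    rw [mem_insert, mem_inter]
    constructor
    · intro hy
      by_cases hyB : y ∈ B
      · exact Or.inr ⟨hy, hyB⟩
      · rcases huniq y (hA.1 hy) (hle _ _ hy hyB hvB hvA) with h | h
        · exact Or.inl h
        · exact absurd (h ▸ hvB) hyB
    · rintro (h | h)
      · rw [h]
        exact huA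
      · exact h.1
  · ext y
    rw [mem_insert, mem_inter]
    constructor
    · intro hy
      by_cases hyA : y ∈ A
      · exact Or.inr ⟨hyA, hy⟩
      · rcases huniq y (hB.1 hy)
          ((hle _ _ huA huB hy hyA).symm.trans (hle _ _ huA huB hvB hvA)) with h | h
        · exact absurd (h ▸ huA) hyA
        · exact Or.inl h
    · rintro (h | h)
      · rw [h]
        exact hvB
      · exact h.2

end Pool.Agent.H93.EL
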