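import Pool.Agent.H93.EL.Def

/-!
# Module Frm (80 lines): lines given by an equation; a frame exists

PROOF. `line_of`: `w = a² + b² > 0`, `q = (a c / w, b c / w)` and `x = q + (-b, a)` (points of `Pt 2` are
written `!₂[u, v]`; `(!₂[u, v]) 0 = u` by `simp` or `rfl`). Then `a q_0 + b q_1 = c` and
`det2 q x y = (x_0 - q_0)(y_1 - q_1) - (x_1 - q_1)(y_0 - q_0) = -b (y_1 - q_1) - a (y_0 - q_0) =
c - (a y_0 + b y_1)`. `q ≠ x` since `-b ≠ 0` or `a ≠ 0`.

`line_two`: with `q`, `x` from `line_of` the set is contained in `{z | z ∈ G.V ∧ z ∈ line[ℝ, q, x]}`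
(`mem_line`), and `G.genPos` with `finrank_line` gives `ncard ≤ 2` (`Set.ncard_le_ncard`,
`Set.ncard_coe_finset`), exactly as in `det2_ne_zero` in `Pool/Agent/H56/ElssGeom.lean`.

`exists_frame`: for `p ≠ q` in `G.V` there is at most one `ε` with `gx ε p = gx ε q`: if `p 1 ≠ q 1` it is
`(q 0 - p 0) / (p 1 - q 1)`, if `p 1 = q 1` then `p 0 ≠ q 0` (`pt2_ext`) and there is none. Take `ε`
outside the finite image of `G.V ×ˢ G.V` under `(p, q) ↦ (q 0 - p 0) / (p 1 - q 1)`
(`Infinite.exists_notMem_finset`). `two`: `gh ε s p = c` is `(-s) p_0 + (1 - s ε) p_1 = c`, and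
`-s ≠ 0` or `1 - s ε ≠ 0` (if `s = 0` the second is `1`): `line_two`.
-/

set_option autoImplicit false

namespace Pool.Agent.H93.EL

open Finset Pool.Agent.H68 Pool.Agent.H56.Elss
open scoped Classical

theorem line_of (a b c : ℝ) (h : a ≠ 0 ∨ b ≠ 0) :
    ∃ q x : Pt 2, q ≠ x ∧ ∀ y : Pt 2, det2 q x y = c - (a * y 0 + b * y 1) := by
  have hw : 0 < a ^ 2 + b ^ 2 := by
    rcases h with h | h
    · have := pow_pos (abs_pos.2 h) 2
      rw [sq_abs] at this
      nlinarith [sq_nonneg b]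
    · have := pow_pos (abs_pos.2 h) 2
      rw [sq_abs] at this
      nlinarith [sq_nonneg a]
  refine ⟨!₂[a * c / (a ^ 2 + b ^ 2), b * c / (a ^ 2 + b ^ 2)],
    !₂[a * c / (a ^ 2 + b ^ 2) - b, b * c / (a ^ 2 + b ^ 2) + a], ?_, ?_⟩
  · intro he
    have h0 := congrArg (fun p : Pt 2 => p 0) he
    have h1 := congrArg (fun p : Pt 2 => p 1) he
    simp at h0 h1
    rcases h with h | h
    · apply h
      linarith
    · apply h
      linarith
  · intro y
    have h2 : det2 (!₂[a * c / (a ^ 2 + b ^ 2), b * c / (a ^ 2 + b ^ 2)] : Pt 2)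
        (!₂[a * c / (a ^ 2 + b ^ 2) - b, b * c / (a ^ 2 + b ^ 2) + a] : Pt 2) y =
        (a * c / (a ^ 2 + b ^ 2) - b - a * c / (a ^ 2 + b ^ 2)) *
          (y 1 - b * c / (a ^ 2 + b ^ 2)) -
        (b * c / (a ^ 2 + b ^ 2) + a - b * c / (a ^ 2 + b ^ 2)) *
          (y 0 - a * c / (a ^ 2 + b ^ 2)) := rfl
    rw [h2]
    field_simp
    ring

theorem line_two (G : GeomHyp 2 2) (a b c : ℝ) (h : a ≠ 0 ∨ b ≠ 0) :
    (G.V.filter fun p => a * p 0 + b * p 1 = c).card ≤ 2 := by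
  obtain ⟨q, x, hqx, hd⟩ := line_of a b c h
  have h1 := G.genPos (line[ℝ, q, x]) (by rw [finrank_line hqx])
  have h2 : ((G.V.filter fun p => a * p 0 + b * p 1 = c : Finset (Pt 2)) : Set (Pt 2)) ⊆
      {z | z ∈ G.V ∧ z ∈ line[ℝ, q, x]} := by
    intro z hz
    rw [mem_coe, mem_filter] at hz
    refine ⟨hz.1, mem_line hqx ?_⟩
    rw [hd, hz.2, sub_self]
  have h3 := Set.ncard_le_ncard h2 (G.V.finite_toSet.subset (fun z hz => hz.1))
  rw [Set.ncard_coe_finset] at h3
  exact h3.trans h1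

theorem exists_frame (G : GeomHyp 2 2) : ∃ ε : ℝ, Frame G.V ε := by
  obtain ⟨ε, hε⟩ := Infinite.exists_notMem_finset
    ((G.V ×ˢ G.V).image fun z : Pt 2 × Pt 2 => (z.2 0 - z.1 0) / (z.1 1 - z.2 1))
  refine ⟨ε, ⟨?_, ?_⟩⟩
  · intro p hp q hq hpq
    unfold gx at hpq
    by_cases h1 : p 1 = q 1
    · refine pt2_ext ?_ h1
      rw [h1] at hpq
      linarith
    · exfalso
      apply hε
      rw [mem_image]
      refine ⟨(p, q), mem_product.2 ⟨hp, hq⟩, ?_⟩
      have h2 : p 1 - q 1 ≠ 0 := sub_ne_zero.2 h1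
      show (q 0 - p 0) / (p 1 - q 1) = ε
      rw [div_eq_iff h2]
      linarith
  · intro s c
    have h1 : (G.V.filter fun p => gh ε s p = c) =
        G.V.filter fun p => (-s) * p 0 + (1 - s * ε) * p 1 = c := by
      apply filter_congr
      intro p _
      unfold gh gx
      constructor
      · intro h
        rw [← h]
        ring
      · intro h
        rw [← h]
        ring
    rw [h1]
    apply line_two
    by_cases hs : s = 0
    · right
      rw [hs, zero_mul, sub_zero]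
      exact one_ne_zero
    · left
      exact neg_ne_zero.2 hs

end Pool.Agent.H93.EL
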