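import Pool.Agent.H93.EL.Def

/-!
# Module Str (100 lines): a lower part is a cut

PROOF. If `A = ∅` or `A = V` take the line `p 1 = c` (`a = 0`, `b = 1`) with `c` smaller (larger) than all
`p 1`, `p ∈ V`. Otherwise let `u ∈ A` maximise `gh ε s` on `A` and `v ∈ V \ A` minimise it on `V \ A`
(`Finset.exists_max_image`, `Finset.exists_min_image`). `gh ε s u ≤ gh ε s v`.
Case `<`: the line `gh ε s p = (gh ε s u + gh ε s v) / 2`; here and below `gh ε s p =
(-s) p 0 + (1 - s ε) p 1` and one of `-s`, `1 - s ε` is not zero (if `s = 0` the second is 1).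
Case `=`, common value `c`: `u ≠ v` (one is in `A`), so by `Frame.two` no other point of `V` has height
`c`; so all `p ∈ A`, `p ≠ u` have `gh ε s p < c` and all `q ∈ V \ A`, `q ≠ v` have `gh ε s q > c`.
For `t = s + η` is `gh ε t p = gh ε s p - η (gx ε p)`. `gx ε u ≠ gx ε v` by `Frame.inj`; choose the sign
of `η` such that `η (gx ε u - gx ε v) > 0`; then `gh ε t u < gh ε t v`. For `|η|` small enough all the
finitely many strict inequalities `gh ε t p < gh ε t v` and `gh ε t u < gh ε t q` and
`gh ε t p < gh ε t q` (`p ∈ A`, `p ≠ u`, `q ∈ V \ A`, `q ≠ v`) still hold. A short way: the set of `t` with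
`∀ p ∈ A, ∀ q ∈ V \ A, (p, q) ≠ (u, v) → gh ε t p < gh ε t q` is a neighbourhood of `s` (a finite
intersection of open sets, `Filter.eventually_all_finset`, continuity of `gh` in `t`), so by
`Metric.eventually_nhds_iff` contains `s ± η` for some `η > 0`. For this `t` all `p ∈ A`, `q ∈ V \ A` have
`gh ε t p < gh ε t q`, and we are in the first case (the same argument with maximum and minimum).
-/

set_option autoImplicit false

namespace Pool.Agent.H93.EL

open Finset Pool.Agent.H68
open scoped Classical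

private theorem Str_abs (V : Finset (Pt 2)) {p : Pt 2} (hp : p ∈ V) :
    |p 1| ≤ ∑ q ∈ V, |q 1| :=
  Finset.single_le_sum (f := fun q : Pt 2 => |q 1|) (fun _ _ => abs_nonneg _) hp

/-- strictly lower parts are cuts -/
theorem cut_of_lt {V : Finset (Pt 2)} {ε s : ℝ} {A : Finset (Pt 2)} (hA : A ⊆ V)
    (h : ∀ p ∈ A, ∀ q ∈ V, q ∉ A → gh ε s p < gh ε s q) : IsCut V A := by
  refine ⟨hA, ?_⟩
  rcases A.eq_empty_or_nonempty with rfl | hne
  · refine ⟨0, 1, -(∑ q ∈ V, |q 1|) - 1, Or.inr one_ne_zero, fun p hp => ?_, fun p hp _ => ?_⟩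
    · exact absurd hp (Finset.notMem_empty p)
    · have h1 := Str_abs V hp
      have h2 := neg_abs_le (p 1)
      linarith
  rcases (V \ A).eq_empty_or_nonempty with he | hne'
  · refine ⟨0, 1, (∑ q ∈ V, |q 1|) + 1, Or.inr one_ne_zero, fun p hp => ?_, fun p hp hpA => ?_⟩
    · have h1 := Str_abs V (hA hp)
      have h2 := le_abs_self (p 1)
      linarith
    · exfalso
      have : p ∈ V \ A := Finset.mem_sdiff.2 ⟨hp, hpA⟩
      rw [he] at this
      exact Finset.notMem_empty p this
  obtain ⟨u, hu, humax⟩ := A.exists_max_image (gh ε s) hne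
  obtain ⟨v, hv, hvmin⟩ := (V \ A).exists_min_image (gh ε s) hne'
  have huv := h u hu v (Finset.mem_sdiff.1 hv).1 (Finset.mem_sdiff.1 hv).2
  have hgh : ∀ p : Pt 2, -s * p 0 + (1 - s * ε) * p 1 = gh ε s p := by
    intro p
    unfold gh gx
    ring
  refine ⟨-s, 1 - s * ε, (gh ε s u + gh ε s v) / 2, ?_, fun p hp => ?_, fun p hp hpA => ?_⟩
  · by_cases hs : s = 0
    · right
      rw [hs, zero_mul, sub_zero]
      exact one_ne_zero
    · left
      exact neg_ne_zero.2 hs
  · rw [hgh]
    have := humax p hp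
    linarith
  · rw [hgh]
    have := hvmin p (Finset.mem_sdiff.2 ⟨hp, hpA⟩)
    linarith

private theorem Str_cont (ε : ℝ) (p : Pt 2) : Continuous fun t : ℝ => gh ε t p := by
  unfold gh
  fun_prop

theorem low_cut {V : Finset (Pt 2)} {ε s : ℝ} (hF : Frame V ε) {A : Finset (Pt 2)}
    (hA : Low V ε s A) : IsCut V A := by
  obtain ⟨hAV, hlow⟩ := hA
  rcases A.eq_empty_or_nonempty with rfl | hne
  · exact cut_of_lt (ε := ε) (s := s) hAV (fun p hp => absurd hp (Finset.notMem_empty p))
  rcases (V \ A).eq_empty_or_nonempty with he | hne'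
  · refine cut_of_lt (ε := ε) (s := s) hAV (fun p _ q hq hqA => ?_)
    exfalso
    have : q ∈ V \ A := Finset.mem_sdiff.2 ⟨hq, hqA⟩
    rw [he] at this
    exact Finset.notMem_empty q this
  obtain ⟨u, hu, humax⟩ := A.exists_max_image (gh ε s) hne
  obtain ⟨v, hv, hvmin⟩ := (V \ A).exists_min_image (gh ε s) hne'
  have hvV : v ∈ V := (Finset.mem_sdiff.1 hv).1
  have hvA : v ∉ A := (Finset.mem_sdiff.1 hv).2
  rcases (hlow u hu v hvV hvA).lt_or_eq with hlt | heq
  · refine cut_of_lt (ε := ε) (s := s) hAV (fun p hp q hq hqA => ?_)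
    have h1 := humax p hp
    have h2 := hvmin q (Finset.mem_sdiff.2 ⟨hq, hqA⟩)
    linarith
  have huv : u ≠ v := fun h => hvA (h ▸ hu)
  -- only `u` and `v` have this height
  have honly : ∀ w ∈ V, gh ε s w = gh ε s u → w = u ∨ w = v := by
    intro w hw hwu
    by_contra hcon
    push Not at hcon
    have hsub : ({w, u, v} : Finset (Pt 2)) ⊆ V.filter fun p => gh ε s p = gh ε s u := by
      intro z hz
      rw [Finset.mem_filter]
      rw [Finset.mem_insert, Finset.mem_insert, Finset.mem_singleton] at hz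
      rcases hz with rfl | rfl | rfl
      · exact ⟨hw, hwu⟩
      · exact ⟨hAV hu, rfl⟩
      · exact ⟨hvV, heq.symm⟩
    have h3 : ({w, u, v} : Finset (Pt 2)).card = 3 := by
      rw [Finset.card_eq_three]
      exact ⟨w, u, v, hcon.1, hcon.2, huv, rfl⟩
    have h4 := Finset.card_le_card hsub
    have h5 := hF.two s (gh ε s u)
    omega
  have hstrict : ∀ p ∈ A, ∀ q ∈ V \ A, (p, q) ≠ (u, v) → gh ε s p < gh ε s q := by
    intro p hp q hq hne2
    have h1 := humax p hp
    have h2 := hvmin q hq
    by_cases hpu : p = u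
    · have hqv : q ≠ v := fun h => hne2 (by rw [hpu, h])
      have h3 : gh ε s q ≠ gh ε s u := by
        intro h
        rcases honly q (Finset.mem_sdiff.1 hq).1 h with h' | h'
        · exact (Finset.mem_sdiff.1 hq).2 (h' ▸ hu)
        · exact hqv h'
      have h4 : gh ε s u < gh ε s q := lt_of_le_of_ne (by linarith) (Ne.symm h3)
      linarith
    · have h3 : gh ε s p ≠ gh ε s u := by
        intro h
        rcases honly p (hAV hp) h with h' | h'
        · exact hpu h'
        · exact hvA (h' ▸ hp)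
      have h4 : gh ε s p < gh ε s u := lt_of_le_of_ne h1 h3
      linarith
  have hev : ∀ᶠ t in nhds s, ∀ p ∈ A, ∀ q ∈ V \ A, (p, q) ≠ (u, v) → gh ε t p < gh ε t q := by
    rw [Filter.eventually_all_finset]
    intro p hp
    rw [Filter.eventually_all_finset]
    intro q hq
    by_cases hne2 : (p, q) = (u, v)
    · exact Filter.Eventually.of_forall fun t h => absurd hne2 h
    · have h1 := hstrict p hp q hq hne2
      filter_upwards [(Str_cont ε p).continuousAt.eventually_lt (Str_cont ε q).continuousAt h1]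
        with t ht _
      exact ht
  obtain ⟨δ, hδ, hball⟩ := Metric.eventually_nhds_iff.1 hev
  have hgx : gx ε u ≠ gx ε v := fun h => huv (hF.inj u (hAV hu) v hvV h)
  -- the slope
  obtain ⟨η, hη, hsign⟩ : ∃ η : ℝ, |η| < δ ∧ 0 < η * (gx ε u - gx ε v) := by
    rcases lt_or_gt_of_ne hgx with h | h
    · refine ⟨-(δ / 2), ?_, ?_⟩
      · rw [abs_neg, abs_of_pos (by linarith)]
        linarith
      · nlinarith
    · refine ⟨δ / 2, ?_, ?_⟩
      · rw [abs_of_pos (by linarith)]
        linarith
      · exact mul_pos (by linarith) (by linarith)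
  have hb := hball (y := s + η) (by rw [Real.dist_eq, add_sub_cancel_left]; exact hη)
  refine cut_of_lt (ε := ε) (s := s + η) hAV (fun p hp q hq hqA => ?_)
  by_cases hne2 : (p, q) = (u, v)
  · obtain ⟨rfl, rfl⟩ := Prod.mk.inj hne2
    have h1 : gh ε (s + η) p = gh ε s p - η * gx ε p := by
      unfold gh
      ring
    have h2 : gh ε (s + η) q = gh ε s q - η * gx ε q := by
      unfold gh
      ring
    rw [h1, h2]
    linarith
  · exact hb p hp q (Finset.mem_sdiff.2 ⟨hq, hqA⟩) hne2

end Pool.Agent.H93.EL
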