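import Pool.Agent.H56.ElssGeom

/-!
# H93.EL: lines and edges of planar geometric graphs (MP_737bdd_co), definitions

`V` is a finite set of points of the plane. `gx ε p = p 0 + ε p 1` is the abscissa of `p` in the frame
with parameter `ε`, `gh ε s p = p 1 - s (gx ε p)` the height of `p` over the line of slope `s` through
the origin of this frame. `Frame V ε`: different points of `V` have different abscissas and no line
which is not vertical (in this frame) contains three points of `V`. `Low V ε s A`: `A` consists of the
lowest points of `V` in direction `s`, ties are broken arbitrarily. `IsCut V A`: `A` is the set of the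
points of `V` on one side of a line which contains no point of `V`. `Sep A x y`: exactly one of `x`, `y`
is in `A`.
-/

set_option autoImplicit false

namespace Pool.Agent.H93.EL

open Finset Pool.Agent.H68
open scoped Classical

/-- the abscissa of a point in the frame with parameter `ε` -/
def gx (ε : ℝ) (p : Pt 2) : ℝ := p 0 + ε * p 1

/-- the height of a point over the line of slope `s` -/
def gh (ε s : ℝ) (p : Pt 2) : ℝ := p 1 - s * gx ε p

/-- the frame is in general position to `V` -/
structure Frame (V : Finset (Pt 2)) (ε : ℝ) : Prop where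
  inj : ∀ p ∈ V, ∀ q ∈ V, gx ε p = gx ε q → p = q
  two : ∀ s c : ℝ, (V.filter fun p => gh ε s p = c).card ≤ 2

/-- `A` is a lower part of `V` in direction `s`, ties are broken arbitrarily -/
def Low (V : Finset (Pt 2)) (ε s : ℝ) (A : Finset (Pt 2)) : Prop :=
  A ⊆ V ∧ ∀ p ∈ A, ∀ q ∈ V, q ∉ A → gh ε s p ≤ gh ε s q

/-- `A` is the set of points of `V` on one side of a line which avoids `V` -/
def IsCut (V A : Finset (Pt 2)) : Prop :=
  A ⊆ V ∧ ∃ a b c : ℝ, (a ≠ 0 ∨ b ≠ 0) ∧ (∀ p ∈ A, a * p 0 + b * p 1 < c) ∧
    ∀ p ∈ V, p ∉ A → c < a * p 0 + b * p 1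

/-- `x` and `y` are separated by `A` -/
def Sep (A : Finset (Pt 2)) (x y : Pt 2) : Prop := ¬ (x ∈ A ↔ y ∈ A)

/-- the ordered pairs of adjacent vertices -/
noncomputable def ord (G : GeomHyp 2 2) : Finset (Pt 2 × Pt 2) :=
  G.V.offDiag.filter fun z => ({z.1, z.2} : Finset (Pt 2)) ∈ G.E

/-- the ordered pairs of points of `P` which are separated by no member of `l` -/
noncomputable def uns (l : List (Finset (Pt 2))) (P : Finset (Pt 2)) : Finset (Pt 2 × Pt 2) :=
  P.offDiag.filter fun z => ∀ A ∈ l, ¬ Sep A z.1 z.2

/-- the ordered pairs of points of `P` which are separated by all members of `l` -/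
noncomputable def bad (l : List (Finset (Pt 2))) (P : Finset (Pt 2)) : Finset (Pt 2 × Pt 2) :=
  P.offDiag.filter fun z => ∀ A ∈ l, Sep A z.1 z.2

/-- every line meets at most `M` edges of `G` -/
def Bd (G : GeomHyp 2 2) (M : ℕ) : Prop :=
  ∀ L : AffineSubspace ℝ (Pt 2), IsFlat 1 L → numMet G L ≤ M

end Pool.Agent.H93.EL
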