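import Pool.Agent.H93.EL.Ark

/-!
# Module Ard (170 lines): dense graphs

PROOF. If `m² ≤ 2 n³` use `h.O`. Otherwise `big`: `n ≥ 10`. As real numbers `w = n (n - 1) / 2 - m ≥ 0`,
`δ = (n + 2 w) / n² = 1 - 2 m / n²`, `1 / n ≤ δ`, `δ < 1`. With `x = 1 - 1 / N`:
`m / n - x n / 2 = (n / 2) (1 / N - δ)`. By `key0` and `h.B N` it suffices to find `N` with `N (N - 1) ≤ n`,
`N ≥ 1` and (*) `n² (1 / N - δ)² / 4 ≤ n / 2 - n / (2 N) - N / 4`.
`pow_bound`: `(n + 2 w)⁴ ≤ 2 n⁷`: with `b = 2 w`, `b⁴ ≤ n⁷`, `1000 n⁴ ≤ n⁷`; convexity in the form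
`(n + b)⁴ ≤ 300 n⁴ + (5 / 3) b⁴` (with weights: `(n + b)⁴ ≤ n⁴ / λ³ + b⁴ / (1 - λ)³`, `λ = 3 / 20`), so
`(n + b)⁴ ≤ (3 / 10 + 5 / 3) n⁷ ≤ 2 n⁷`. So `n δ⁴ ≤ 2` and with `z = 1 / δ`: `n ≤ 2 z⁴`, `z > 1.49`.
CASE `N = 2` (`2 / 5 ≤ δ`): then `δ⁴ ≤ 2 / n ≤ 1 / 5` gives `δ ≤ 67 / 100`, and `n ≤ 2 / δ⁴ ≤ 2 (5 / 2)⁴ < 79`. (*) is
`n (1 / 2 - δ)² ≤ 1 - 2 / n`. If `δ ≤ 1 / 2`: `n (1 / 2 - δ)² ≤ n / 100 ≤ 1 - 2 / n` for `10 ≤ n ≤ 78`. If
`δ ≥ 1 / 2`: `n ≤ 2 / δ⁴ ≤ 32` and `(δ - 1 / 2)² ≤ (17 / 100)² ≤ 29 / 1000`, `29 n / 1000 ≤ 1 - 2 / n` for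
`10 ≤ n ≤ 32` (a quadratic inequality; at `n = 32` it is `0.928 ≤ 0.9375`).
CASE `3 ≤ N`, `|z - N| ≤ 1 / 2`, `N (N - 1) ≤ n`: `N / z ≥ 6 / 7`, since `z ≤ N + 1 / 2 ≤ 7 N / 6`.
`n² (1 / N - δ)² / 4 = n² (z - N)² / (4 z² N²) ≤ n² / (16 z² (36 / 49) z²) = 49 n² / (576 z⁴) ≤ 98 n / 576 ≤
n / 5`. The right side of (*) is at least `n / 2 - n / 6 - n / 8 = 5 n / 24 ≥ n / 5` (`N ≤ n / 2` since
`2 N ≤ N (N - 1) ≤ n`).
CASE `z ≥ N + 1 / 2` where `N ≥ 2` is the largest number with `N (N - 1) ≤ n`, so `n + 1 ≤ N (N + 1)`: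
`1 / n ≤ δ ≤ 1 / N`, so `n (1 / N - δ) ≤ n / N - 1 = (n - N) / N` and the left side of (*) is at most
`(n - N)² / (4 N²)`. (*) follows from `(n - N)² ≤ 2 n N² - 2 n N - N³`. The difference of the two sides is
`(n - a) (b - n) + n + a b - N³ - N²` with `a = N² - N ≤ n ≤ b = N² + N - 1`, and
`n + a b - N³ - N² ≥ a + N⁴ - 2 N² + N - N³ - N² = N² (N - 2) (N + 1) ≥ 0`.
CHOICE: let `N₀` be the largest number with `N₀ (N₀ - 1) ≤ n` (`N₀ ≥ 3`; e.g. `Nat.findGreatest` or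
`Nat.sqrt`); if `z ≤ 5 / 2` take `N = 2`; if `z > N₀ + 1 / 2` take `N = N₀`; otherwise take
`N = ⌊z + 1 / 2⌋₊`, `3 ≤ N ≤ N₀` (if `z = N₀ + 1 / 2` take `N₀`; or use `⌈z - 1 / 2⌉₊`).
-/

set_option autoImplicit false

namespace Pool.Agent.H93.EL

theorem pow_bound {n b : ℝ} (hn : 10 ≤ n) (hb : 0 ≤ b) (h : b ^ 4 ≤ n ^ 7) :
    (n + b) ^ 4 ≤ 2 * n ^ 7 := by
  have h1 : (n + b) ^ 2 ≤ 20 / 3 * n ^ 2 + 20 / 17 * b ^ 2 := by
    nlinarith [sq_nonneg (17 * n - 3 * b)]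
  have h2 : (20 / 3 * n ^ 2 + 20 / 17 * b ^ 2) ^ 2 ≤
      20 / 3 * (20 / 3 * n ^ 2) ^ 2 + 20 / 17 * (20 / 17 * b ^ 2) ^ 2 := by
    nlinarith [sq_nonneg (17 * (20 / 3 * n ^ 2) - 3 * (20 / 17 * b ^ 2))]
  have h3 : (n + b) ^ 4 ≤ (20 / 3 * n ^ 2 + 20 / 17 * b ^ 2) ^ 2 := by
    have h4 : (n + b) ^ 4 = ((n + b) ^ 2) ^ 2 := by ring
    rw [h4]
    exact pow_le_pow_left₀ (sq_nonneg _) h1 2
  have h5 : (1000 : ℝ) ≤ n ^ 3 := by
    have := pow_le_pow_left₀ (by norm_num : (0 : ℝ) ≤ 10) hn 3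
    linarith [this, (by norm_num : (10 : ℝ) ^ 3 = 1000)]
  have h6 : 1000 * n ^ 4 ≤ n ^ 7 := by
    have h7 : n ^ 7 = n ^ 3 * n ^ 4 := by ring
    rw [h7]
    exact mul_le_mul_of_nonneg_right h5 (by positivity)
  have h8 : 0 ≤ n ^ 7 := by positivity
  have h9 : 20 / 3 * (20 / 3 * n ^ 2) ^ 2 + 20 / 17 * (20 / 17 * b ^ 2) ^ 2 =
      8000 / 27 * n ^ 4 + 8000 / 4913 * b ^ 4 := by ring
  rw [h9] at h2
  linarith

private theorem Ard_A {n δ : ℝ} (hn : 10 ≤ n) (h2 : n * δ ^ 4 ≤ 2) (h4 : 2 / 5 ≤ δ) :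
    n ^ 2 * (1 / 2 - δ) ^ 2 ≤ n - 2 := by
  rcases le_total δ (1 / 2) with h5 | h5
  · have h6 : (2 / 5 : ℝ) ^ 4 ≤ δ ^ 4 := pow_le_pow_left₀ (by norm_num) h4 4
    have h7 : n * (2 / 5) ^ 4 ≤ 2 := le_trans (mul_le_mul_of_nonneg_left h6 (by linarith)) h2
    have h8 : n ≤ 79 := by
      norm_num at h7
      linarith
    have h9 : (1 / 2 - δ) ^ 2 ≤ 1 / 100 := by nlinarith
    have h10 : n ^ 2 * (1 / 2 - δ) ^ 2 ≤ n ^ 2 * (1 / 100) :=
      mul_le_mul_of_nonneg_left h9 (by positivity)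
    nlinarith
  · have h6 : (1 / 2 : ℝ) ^ 4 ≤ δ ^ 4 := pow_le_pow_left₀ (by norm_num) h5 4
    have h7 : n * (1 / 2) ^ 4 ≤ 2 := le_trans (mul_le_mul_of_nonneg_left h6 (by linarith)) h2
    have h8 : n ≤ 32 := by
      norm_num at h7
      linarith
    have h11 : δ ≤ 67 / 100 := by
      by_contra hc
      push Not at hc
      have h12 : (67 / 100 : ℝ) ^ 4 ≤ δ ^ 4 := pow_le_pow_left₀ (by norm_num) hc.le 4
      have h13 : 10 * (67 / 100 : ℝ) ^ 4 ≤ n * δ ^ 4 :=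
        mul_le_mul hn h12 (by positivity) (by linarith)
      norm_num at h13
      linarith
    have h9 : (1 / 2 - δ) ^ 2 ≤ 289 / 10000 := by nlinarith
    have h10 : n ^ 2 * (1 / 2 - δ) ^ 2 ≤ n ^ 2 * (289 / 10000) :=
      mul_le_mul_of_nonneg_left h9 (by positivity)
    nlinarith

private theorem Ard_B1 {n N δ : ℝ} (hN : 3 ≤ N) (ha : N ^ 2 - N ≤ n) (hb : n ≤ N ^ 2 + N - 1)
    (h1 : 1 / n ≤ δ) (h3 : δ ≤ 1 / N) :
    n ^ 2 * (1 / N - δ) ^ 2 / 4 ≤ n / 2 - n / (2 * N) - N / 4 := by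
  have hN0 : 0 < N := by linarith
  have hn0 : 0 < n := by nlinarith
  have h5 : 0 ≤ 1 / N - δ := by linarith
  have h6 : 1 / N - δ ≤ (n - N) / (n * N) := by
    have : (n - N) / (n * N) = 1 / N - 1 / n := by
      field_simp
    rw [this]
    linarith
  have h7 : (1 / N - δ) ^ 2 ≤ ((n - N) / (n * N)) ^ 2 := pow_le_pow_left₀ h5 h6 2
  have h8 : n ^ 2 * (1 / N - δ) ^ 2 / 4 ≤ (n - N) ^ 2 / (4 * N ^ 2) := by
    have h9 : n ^ 2 * ((n - N) / (n * N)) ^ 2 / 4 = (n - N) ^ 2 / (4 * N ^ 2) := by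
      field_simp
    rw [← h9]
    have := mul_le_mul_of_nonneg_left h7 (by positivity : (0 : ℝ) ≤ n ^ 2)
    linarith
  refine h8.trans ?_
  have h10 : n / 2 - n / (2 * N) - N / 4 = (2 * n * N ^ 2 - 2 * n * N - N ^ 3) / (4 * N ^ 2) := by
    field_simp
    ring
  rw [h10]
  refine div_le_div_of_nonneg_right ?_ (by positivity)
  have h11 : 0 ≤ (n - (N ^ 2 - N)) * (N ^ 2 + N - 1 - n) :=
    mul_nonneg (by linarith) (by linarith)
  have h12 : 0 ≤ N ^ 2 * ((N - 2) * (N + 1)) :=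
    mul_nonneg (by positivity) (mul_nonneg (by linarith) (by linarith))
  nlinarith

private theorem Ard_B2 {n N δ : ℝ} (hn : 0 < n) (hN : 3 ≤ N) (ha : N * (N - 1) ≤ n) (hδ : 0 < δ)
    (h2 : n * δ ^ 4 ≤ 2) (h5 : (N - 1 / 2) * δ ≤ 1) (h6 : 1 ≤ (N + 1 / 2) * δ) :
    n ^ 2 * (1 / N - δ) ^ 2 / 4 ≤ n / 2 - n / (2 * N) - N / 4 := by
  have hN0 : 0 < N := by linarith
  have h7 : 1 / N ≤ 7 / 6 * δ := by
    rw [div_le_iff₀ hN0]
    nlinarith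
  have h8 : (1 / N - δ) ^ 2 ≤ (7 / 12 * δ ^ 2) ^ 2 := by
    have h9 : N * (1 / N - δ) = 1 - N * δ := by
      field_simp
    have h10 : (N * (1 / N - δ)) ^ 2 ≤ (δ / 2) ^ 2 := by
      rw [h9]
      refine sq_le_sq' ?_ ?_ <;> linarith
    have h11 : (1 / N - δ) ^ 2 = (1 / N) ^ 2 * (N * (1 / N - δ)) ^ 2 := by
      field_simp
    rw [h11]
    have h12 : (1 / N) ^ 2 ≤ (7 / 6 * δ) ^ 2 := pow_le_pow_left₀ (by positivity) h7 2
    calc (1 / N) ^ 2 * (N * (1 / N - δ)) ^ 2 ≤ (7 / 6 * δ) ^ 2 * (δ / 2) ^ 2 :=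
          mul_le_mul h12 h10 (sq_nonneg _) (sq_nonneg _)
      _ = (7 / 12 * δ ^ 2) ^ 2 := by ring
  have h13 : n ^ 2 * (1 / N - δ) ^ 2 ≤ n ^ 2 * (7 / 12 * δ ^ 2) ^ 2 :=
    mul_le_mul_of_nonneg_left h8 (by positivity)
  have h14 : n ^ 2 * (7 / 12 * δ ^ 2) ^ 2 = 49 / 144 * n * (n * δ ^ 4) := by ring
  have h15 : 49 / 144 * n * (n * δ ^ 4) ≤ 49 / 144 * n * 2 :=
    mul_le_mul_of_nonneg_left h2 (by positivity)
  have h16 : n / (2 * N) ≤ n / 6 := div_le_div_of_nonneg_left hn.le (by norm_num) (by linarith)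
  have h17 : 2 * N ≤ n := by nlinarith
  linarith

/-- the choice of `N` -/
theorem choice {n : ℕ} {δ : ℝ} (hn : 10 ≤ n) (h1 : 1 / (n : ℝ) ≤ δ) (h2 : (n : ℝ) * δ ^ 4 ≤ 2)
    (h3 : δ < 1) :
    ∃ N : ℕ, 1 ≤ N ∧ N * (N - 1) ≤ n ∧
      (n : ℝ) ^ 2 * (1 / N - δ) ^ 2 / 4 ≤ (n : ℝ) / 2 - n / (2 * N) - N / 4 := by
  have hnR : (10 : ℝ) ≤ n := by exact_mod_cast hn
  have hδ : 0 < δ := lt_of_lt_of_le (by positivity) h1
  rcases le_or_gt (2 / 5) δ with h4 | h4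
  · refine ⟨2, by norm_num, by omega, ?_⟩
    have := Ard_A hnR h2 h4
    push_cast
    linarith
  · set N₀ := Nat.findGreatest (fun N => N * (N - 1) ≤ n) n with hN₀
    have hP : N₀ * (N₀ - 1) ≤ n := by
      have := Nat.findGreatest_spec (P := fun N => N * (N - 1) ≤ n) (Nat.zero_le n)
        (by simp)
      exact this
    have h3N : 3 ≤ N₀ :=
      Nat.le_findGreatest (P := fun N => N * (N - 1) ≤ n) (by omega) (by norm_num; omega)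
    have hle : N₀ ≤ n := Nat.findGreatest_le n
    have hlt : N₀ < n := by
      rcases Nat.lt_or_ge N₀ n with h | h
      · exact h
      · exfalso
        have he : N₀ = n := le_antisymm hle h
        rw [he] at hP
        have : n * 2 ≤ n * (n - 1) := Nat.mul_le_mul_left n (by omega)
        omega
    have hnP : n + 1 ≤ (N₀ + 1) * N₀ := by
      have := Nat.findGreatest_is_greatest (P := fun N => N * (N - 1) ≤ n) (n := n) (k := N₀ + 1)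
        (by omega) (by omega)
      simp only [Nat.add_sub_cancel, not_le] at this
      exact this
    rcases le_or_gt (((N₀ : ℝ) + 1 / 2) * δ) 1 with h5 | h5
    · refine ⟨N₀, by omega, hP, ?_⟩
      have hNR : (3 : ℝ) ≤ N₀ := by exact_mod_cast h3N
      have hPR : (N₀ : ℝ) ^ 2 - N₀ ≤ n := by
        have : ((N₀ * (N₀ - 1) : ℕ) : ℝ) ≤ n := by exact_mod_cast hP
        rw [Nat.cast_mul, Nat.cast_sub (by omega)] at this
        push_cast at this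
        nlinarith
      have hQR : (n : ℝ) ≤ (N₀ : ℝ) ^ 2 + N₀ - 1 := by
        have : ((n + 1 : ℕ) : ℝ) ≤ (((N₀ + 1) * N₀ : ℕ) : ℝ) := by exact_mod_cast hnP
        push_cast at this
        nlinarith
      refine Ard_B1 hNR hPR hQR h1 ?_
      rw [le_div_iff₀ (by linarith)]
      nlinarith
    · set N := ⌊1 / δ + 1 / 2⌋₊ with hN
      have hz : 5 / 2 < 1 / δ := by
        rw [lt_div_iff₀ hδ]
        linarith
      have hz2 : 1 / δ < N₀ + 1 / 2 := by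
        rw [div_lt_iff₀ hδ]
        linarith
      have hf1 : (N : ℝ) ≤ 1 / δ + 1 / 2 := Nat.floor_le (by linarith)
      have hf2 : 1 / δ + 1 / 2 < N + 1 := Nat.lt_floor_add_one _
      have hN3 : 3 ≤ N := Nat.le_floor (by push_cast; linarith)
      have hNN : N ≤ N₀ := by
        have : (N : ℝ) < N₀ + 1 := by linarith
        have : N < N₀ + 1 := by exact_mod_cast this
        omega
      have hPN : N * (N - 1) ≤ n := le_trans (Nat.mul_le_mul hNN (by omega)) hP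
      refine ⟨N, by omega, hPN, ?_⟩
      have hNR : (3 : ℝ) ≤ N := by exact_mod_cast hN3
      have hPR : (N : ℝ) * (N - 1) ≤ n := by
        have : ((N * (N - 1) : ℕ) : ℝ) ≤ n := by exact_mod_cast hPN
        rw [Nat.cast_mul, Nat.cast_sub (by omega)] at this
        push_cast at this
        exact this
      have hd : 1 / δ * δ = 1 := by
        field_simp
      refine Ard_B2 (by linarith) hNR hPR hδ h2 ?_ ?_
      · have := mul_le_mul_of_nonneg_right hf1 hδ.le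
        nlinarith
      · have := mul_le_mul_of_nonneg_right hf2.le hδ.le
        nlinarith

theorem dense {n m : ℕ} {f : ℝ} (h : Bds n m f) (hd : 16 * (n.choose 2 - m) ^ 4 ≤ n ^ 7) :
    (m : ℝ) ^ 2 / (n : ℝ) ^ 2 ≤ f := by
  by_cases hO : m ^ 2 ≤ 2 * n ^ 3
  · exact h.O hO
  · obtain ⟨hn, h2m, _⟩ := big h.le hO
    have hnR : (10 : ℝ) ≤ n := by exact_mod_cast hn
    have hn0 : (0 : ℝ) < n := by linarith
    have hmR : (1 : ℝ) ≤ m := by exact_mod_cast h.one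
    set w := n.choose 2 - m with hw
    have hw2 : 2 * w + 2 * m = n * (n - 1) := by
      have h1 : 2 * n.choose 2 = n * (n - 1) := by
        rw [Nat.choose_two_right]
        exact Nat.mul_div_cancel' (Nat.even_mul_pred_self n).two_dvd
      have := h.le
      omega
    have hwR : 2 * (w : ℝ) + 2 * m = (n : ℝ) ^ 2 - n := by
      have : ((2 * w + 2 * m : ℕ) : ℝ) = ((n * (n - 1) : ℕ) : ℝ) := by rw [hw2]
      rw [Nat.cast_mul, Nat.cast_sub (by omega)] at this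
      push_cast at this
      linarith
    have hb4 : (2 * (w : ℝ)) ^ 4 ≤ (n : ℝ) ^ 7 := by
      have : ((16 * w ^ 4 : ℕ) : ℝ) ≤ ((n ^ 7 : ℕ) : ℝ) := by exact_mod_cast hd
      push_cast at this
      have e : (2 * (w : ℝ)) ^ 4 = 16 * (w : ℝ) ^ 4 := by ring
      rw [e]
      exact this
    have hw0 : (0 : ℝ) ≤ w := Nat.cast_nonneg w
    have hpb := pow_bound hnR (by linarith : (0 : ℝ) ≤ 2 * (w : ℝ)) hb4
    set δ : ℝ := ((n : ℝ) + 2 * w) / (n : ℝ) ^ 2 with hδ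
    have hδ1 : 1 / (n : ℝ) ≤ δ := by
      rw [hδ, div_le_div_iff₀ hn0 (by positivity)]
      nlinarith
    have hδ2 : (n : ℝ) * δ ^ 4 ≤ 2 := by
      have e : (n : ℝ) * δ ^ 4 = ((n : ℝ) + 2 * w) ^ 4 / (n : ℝ) ^ 7 := by
        rw [hδ]
        field_simp
      rw [e, div_le_iff₀ (by positivity)]
      exact hpb
    have hδ3 : δ = 1 - 2 * m / (n : ℝ) ^ 2 := by
      rw [hδ]
      field_simp
      linarith
    have hδ4 : δ < 1 := by
      rw [hδ3]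
      have : 0 < 2 * (m : ℝ) / (n : ℝ) ^ 2 := by positivity
      linarith
    obtain ⟨N, hN1, hNP, hNi⟩ := choice hn hδ1 hδ2 hδ4
    have hNR : (1 : ℝ) ≤ N := by exact_mod_cast hN1
    have hN0 : (0 : ℝ) < N := by linarith
    have hk : ((m : ℝ) / n - (1 - 1 / (N : ℝ)) * n / 2) ^ 2 ≤
        (1 - 1 / (N : ℝ)) * n / 2 - N / 4 := by
      have e1 : (m : ℝ) / n - (1 - 1 / (N : ℝ)) * n / 2 = n / 2 * (1 / N - δ) := by
        rw [hδ3]
        field_simp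
        ring
      have e2 : (1 - 1 / (N : ℝ)) * n / 2 - N / 4 = n / 2 - n / (2 * N) - N / 4 := by
        field_simp
      rw [e1, e2]
      have e3 : ((n : ℝ) / 2 * (1 / N - δ)) ^ 2 = (n : ℝ) ^ 2 * (1 / N - δ) ^ 2 / 4 := by ring
      rw [e3]
      exact hNi
    exact (key0 hn0 hk).trans (h.B N hN1 hNP)

end Pool.Agent.H93.EL
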