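import Pool.Agent.H93.EL.Ark

/-!
# Module Arp (120 lines): the factor 24 / 25

PROOF. `T = m² / n²`, `T ≥ 0`. If `m² ≤ 2 n³` use `h.O`. Otherwise `big`: `n ≥ 10`, `2 m ≤ n² - n`,
`m² > 2 n³`. `key` with `δ = 1 / 5` (`1 - δ² = 24 / 25`) in all cases; `2 m = e n²`:
* `5 n² ≤ 12 m` (`e ≥ 5 / 6`): `h.A 1`, `x = 1`, `c = 1 / 4`. `(4 / 5) 2 m ≤ 2 m ≤ n²`, `n² ≤ (6 / 5) 2 m`.
* `5 n² ≤ 18 m` and `12 m ≤ 5 n²` (`5 / 9 ≤ e ≤ 5 / 6`): `h.B 3`, `x = 2 / 3`, `c = 3 / 4`.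
* `5 n² ≤ 24 m` and `16 m ≤ 5 n²` (`5 / 12 ≤ e ≤ 5 / 8`): `h.A 2`, `x = 1 / 2`, `c = 1 / 4`.
* `24 m ≤ 5 n²`: let `p = ⌈5 n² / (12 m)⌉₊`; `5 n² / (12 m) ≥ 2`, so `p ≥ 1` and `p < 5 n² / (12 m) + 1 ≤
  5 n² / (8 m)` because `5 n² / (8 m) - 5 n² / (12 m) = 5 n² / (24 m) ≥ 1`. `h.A p`, `x = 1 / p`,
  `c = 1 / 4`: `(4 / 5) 2 m ≤ n² / p` is `p ≤ 5 n² / (8 m)`, and `n² / p ≤ (6 / 5) 2 m` is
  `5 n² / (12 m) ≤ p`. `1 / 4 ≤ n / (2 p)` is `p ≤ 2 n`: `5 n² / (8 m) ≤ 2 n` since `16 m ≥ 5 n`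
  (`m² > 2 n³ ≥ n²`).
These cases cover everything since `5 / 18 < 5 / 16`.
-/

set_option autoImplicit false

namespace Pool.Agent.H93.EL

private theorem Arp_A {n m p : ℕ} {f : ℝ} (h : Bds n m f) (hn : 0 < (n : ℝ)) (hm : 0 < (m : ℝ))
    (hp : 1 ≤ p) (h1 : 4 / 5 * (2 * (m : ℝ)) * p ≤ (n : ℝ) ^ 2)
    (h2 : (n : ℝ) ^ 2 ≤ 6 / 5 * (2 * (m : ℝ)) * p) (hc : (p : ℝ) ≤ 2 * n) :
    24 / 25 * ((m : ℝ) ^ 2 / (n : ℝ) ^ 2) ≤ f := by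
  have hp0 : (0 : ℝ) < p := by exact_mod_cast hp
  have h3 : (1 - 1 / 5) * (2 * (m : ℝ)) ≤ 1 / (p : ℝ) * (n : ℝ) ^ 2 := by
    rw [one_div_mul_eq_div, le_div_iff₀ hp0]
    linarith
  have h4 : 1 / (p : ℝ) * (n : ℝ) ^ 2 ≤ (1 + 1 / 5) * (2 * (m : ℝ)) := by
    rw [one_div_mul_eq_div, div_le_iff₀ hp0]
    linarith
  have h5 : (1 / 4 : ℝ) ≤ 1 / (p : ℝ) * n / 2 := by
    rw [one_div_mul_eq_div, div_div, le_div_iff₀ (by positivity)]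
    linarith
  have h6 := key hn hm h3 h4 h5
  have h7 := h.A p hp
  have h8 : 1 / (p : ℝ) * (m : ℝ) - (1 / (p : ℝ)) ^ 2 * (n : ℝ) ^ 2 / 4 + 1 / (p : ℝ) * n / 2 - 1 / 4 =
      (m : ℝ) / p - (n : ℝ) ^ 2 / (4 * p ^ 2) + n / (2 * p) - 1 / 4 := by
    ring
  rw [h8] at h6
  have h9 : (1 - (1 / 5 : ℝ) ^ 2) = 24 / 25 := by norm_num
  rw [h9] at h6
  exact h6.trans h7

theorem factor_twentyfour {n m : ℕ} {f : ℝ} (h : Bds n m f) :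
    24 / 25 * ((m : ℝ) ^ 2 / (n : ℝ) ^ 2) ≤ f := by
  have hT : (0 : ℝ) ≤ (m : ℝ) ^ 2 / (n : ℝ) ^ 2 := by positivity
  by_cases hO : m ^ 2 ≤ 2 * n ^ 3
  · have := h.O hO
    linarith
  obtain ⟨hn10, hle, hgt⟩ := big h.le hO
  have hm : (0 : ℝ) < m := by exact_mod_cast h.one
  have hN : (10 : ℝ) ≤ n := by exact_mod_cast hn10
  have hn : (0 : ℝ) < n := by linarith
  have hnm : (n : ℝ) < m := by
    by_contra hcon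
    push Not at hcon
    nlinarith [sq_nonneg ((n : ℝ)), pow_pos hn 2, pow_pos hn 3]
  by_cases c1 : 5 * n ^ 2 ≤ 12 * m
  · have c1' : 5 * (n : ℝ) ^ 2 ≤ 12 * m := by exact_mod_cast c1
    refine Arp_A (p := 1) h hn hm le_rfl ?_ ?_ ?_
    · push_cast
      linarith
    · push_cast
      linarith
    · push_cast
      linarith
  push Not at c1
  have c1' : 12 * (m : ℝ) < 5 * (n : ℝ) ^ 2 := by exact_mod_cast c1
  by_cases c2 : 5 * n ^ 2 ≤ 18 * m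
  · have c2' : 5 * (n : ℝ) ^ 2 ≤ 18 * m := by exact_mod_cast c2
    have h6 := key (x := 2 / 3) (c := 3 / 4) (δ := 1 / 5) hn hm (by linarith) (by linarith)
      (by linarith)
    have h7 := h.B 3 (by norm_num) (by omega)
    norm_num at h6 h7
    linarith
  push Not at c2
  have c2' : 18 * (m : ℝ) < 5 * (n : ℝ) ^ 2 := by exact_mod_cast c2
  by_cases c3 : 5 * n ^ 2 ≤ 24 * m
  · have c3' : 5 * (n : ℝ) ^ 2 ≤ 24 * m := by exact_mod_cast c3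
    refine Arp_A (p := 2) h hn hm (by norm_num) ?_ ?_ ?_
    · push_cast
      linarith
    · push_cast
      linarith
    · push_cast
      linarith
  push Not at c3
  have c3' : 24 * (m : ℝ) < 5 * (n : ℝ) ^ 2 := by exact_mod_cast c3
  set r : ℝ := 5 * (n : ℝ) ^ 2 / (12 * m) with hr
  have hrm : r * (12 * m) = 5 * (n : ℝ) ^ 2 := by
    rw [hr]
    exact div_mul_cancel₀ _ (by positivity)
  have hr3 : 2 ≤ r := by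
    rw [hr, le_div_iff₀ (by positivity)]
    linarith
  have hp1 : r ≤ (⌈r⌉₊ : ℝ) := Nat.le_ceil r
  have hp2 : (⌈r⌉₊ : ℝ) < r + 1 := Nat.ceil_lt_add_one (by linarith)
  have hp3 : 1 ≤ ⌈r⌉₊ := by
    have : (1 : ℝ) ≤ (⌈r⌉₊ : ℝ) := by linarith
    exact_mod_cast this
  have hp4 : (⌈r⌉₊ : ℝ) ≤ 3 / 2 * r := by linarith
  have hrn : r ≤ n := by
    rw [hr, div_le_iff₀ (by positivity)]
    nlinarith
  refine Arp_A (p := ⌈r⌉₊) h hn hm hp3 ?_ ?_ ?_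
  · nlinarith
  · nlinarith
  · linarith

end Pool.Agent.H93.EL
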