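import Pool.Agent.H93.EL.Ark

/-!
# Module Arq (150 lines): the factor 48 / 49 outside of a window

PROOF. `T = m² / n²`, `T ≥ 0`. If `m² ≤ 2 n³` use `h.O`. Otherwise `big`: `n ≥ 10`, `2 m ≤ n² - n`,
`m² > 2 n³`. `key` with `δ = 1 / 7` (`1 - δ² = 48 / 49`); `2 m = e n²`; the value `x` works for
`7 x / 8 ≤ e ≤ 7 x / 6`:
* `7 n² ≤ 16 m` (`e ≥ 7 / 8`): `h.A 1`, `x = 1`, `c = 1 / 4`.
* `n ≥ 12` and `21 n² ≤ 64 m`, `16 m ≤ 7 n²`: `h.B 4` (`4 * 3 ≤ n`), `x = 3 / 4`, `c = 1`.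
* `7 n² ≤ 24 m`, `18 m ≤ 7 n²`: `h.B 3`, `x = 2 / 3`, `c = 3 / 4`.
* `7 n² ≤ 32 m`, `24 m ≤ 7 n²`: `h.A 2`, `x = 1 / 2`, `c = 1 / 4`.
* `7 n² ≤ 48 m`, `36 m ≤ 7 n²`: `h.A 3`, `x = 1 / 3`, `c = 1 / 4`.
* `48 m ≤ 7 n²` (`e ≤ 7 / 24`): `p = ⌈7 n² / (16 m)⌉₊`; `7 n² / (16 m) ≥ 3` and
  `7 n² / (12 m) - 7 n² / (16 m) = 7 n² / (48 m) ≥ 1`, so `7 n² / (16 m) ≤ p ≤ 7 n² / (12 m)`. `h.A p`,
  `x = 1 / p`, `c = 1 / 4`; `p ≤ 2 n` since `24 m ≥ 7 n`.
* The rest: `n = 10` or `n = 11`, `18 m > 7 n²` and `16 m < 7 n²`. With `2 n³ < m²`: `n = 10` gives `m < 44` and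
  `m² > 2000`, impossible; `n = 11` gives `m ≤ 52` and `m² > 2662`, so `m = 52`. Here `h.A 1` gives
  `f ≥ 52 - 121 / 4 + 11 / 2 - 1 / 4 = 27 ≥ 52² / 121`.
-/

set_option autoImplicit false

namespace Pool.Agent.H93.EL

private theorem Arq_A {n m p : ℕ} {f : ℝ} (h : Bds n m f) (hn : 0 < (n : ℝ)) (hm : 0 < (m : ℝ))
    (hp : 1 ≤ p) (h1 : 6 / 7 * (2 * (m : ℝ)) * p ≤ (n : ℝ) ^ 2)
    (h2 : (n : ℝ) ^ 2 ≤ 8 / 7 * (2 * (m : ℝ)) * p) (hc : (p : ℝ) ≤ 2 * n) :
    48 / 49 * ((m : ℝ) ^ 2 / (n : ℝ) ^ 2) ≤ f := by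
  have hp0 : (0 : ℝ) < p := by exact_mod_cast hp
  have h3 : (1 - 1 / 7) * (2 * (m : ℝ)) ≤ 1 / (p : ℝ) * (n : ℝ) ^ 2 := by
    rw [one_div_mul_eq_div, le_div_iff₀ hp0]
    linarith
  have h4 : 1 / (p : ℝ) * (n : ℝ) ^ 2 ≤ (1 + 1 / 7) * (2 * (m : ℝ)) := by
    rw [one_div_mul_eq_div, div_le_iff₀ hp0]
    linarith
  have h5 : (1 / 4 : ℝ) ≤ 1 / (p : ℝ) * n / 2 := by
    rw [one_div_mul_eq_div, div_div, le_div_iff₀ (by positivity)]
    linarith
  have h6 := key hn hm h3 h4 h5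
  have h7 := h.A p hp
  have h8 : 1 / (p : ℝ) * (m : ℝ) - (1 / (p : ℝ)) ^ 2 * (n : ℝ) ^ 2 / 4 + 1 / (p : ℝ) * n / 2 - 1 / 4 =
      (m : ℝ) / p - (n : ℝ) ^ 2 / (4 * p ^ 2) + n / (2 * p) - 1 / 4 := by
    ring
  rw [h8] at h6
  have h9 : (1 - (1 / 7 : ℝ) ^ 2) = 48 / 49 := by norm_num
  rw [h9] at h6
  exact h6.trans h7

theorem factor_fortyeight {n m : ℕ} {f : ℝ} (h : Bds n m f)
    (hw : 36 * m ≤ 7 * n ^ 2 ∨ 7 * n ^ 2 ≤ 32 * m) :
    48 / 49 * ((m : ℝ) ^ 2 / (n : ℝ) ^ 2) ≤ f := by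
  have hT : (0 : ℝ) ≤ (m : ℝ) ^ 2 / (n : ℝ) ^ 2 := by positivity
  by_cases hO : m ^ 2 ≤ 2 * n ^ 3
  · have := h.O hO
    linarith
  obtain ⟨hn10, hle, hgt⟩ := big h.le hO
  have hm : (0 : ℝ) < m := by exact_mod_cast h.one
  have hN : (10 : ℝ) ≤ n := by exact_mod_cast hn10
  have hn : (0 : ℝ) < n := by linarith
  have hnm : (n : ℝ) < m := by
    by_contra hcon
    push Not at hcon
    nlinarith [sq_nonneg ((n : ℝ)), pow_pos hn 2, pow_pos hn 3]
  by_cases c1 : 7 * n ^ 2 ≤ 16 * m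
  · have c1' : 7 * (n : ℝ) ^ 2 ≤ 16 * m := by exact_mod_cast c1
    refine Arq_A (p := 1) h hn hm le_rfl ?_ ?_ ?_
    · push_cast
      linarith
    · push_cast
      linarith
    · push_cast
      linarith
  push Not at c1
  have c1' : 16 * (m : ℝ) < 7 * (n : ℝ) ^ 2 := by exact_mod_cast c1
  by_cases c2 : 18 * m ≤ 7 * n ^ 2
  · have c2' : 18 * (m : ℝ) ≤ 7 * (n : ℝ) ^ 2 := by exact_mod_cast c2
    by_cases c3 : 7 * n ^ 2 ≤ 24 * m
    · have c3' : 7 * (n : ℝ) ^ 2 ≤ 24 * m := by exact_mod_cast c3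
      have h6 := key (x := 2 / 3) (c := 3 / 4) (δ := 1 / 7) hn hm (by linarith) (by linarith)
        (by linarith)
      have h7 := h.B 3 (by norm_num) (by omega)
      norm_num at h6 h7
      linarith
    · push Not at c3
      have c3' : 24 * (m : ℝ) < 7 * (n : ℝ) ^ 2 := by exact_mod_cast c3
      by_cases c4 : 7 * n ^ 2 ≤ 32 * m
      · have c4' : 7 * (n : ℝ) ^ 2 ≤ 32 * m := by exact_mod_cast c4
        refine Arq_A (p := 2) h hn hm (by norm_num) ?_ ?_ ?_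
        · push_cast
          linarith
        · push_cast
          linarith
        · push_cast
          linarith
      · have c5 : 36 * m ≤ 7 * n ^ 2 := by
          rcases hw with hw | hw
          · exact hw
          · exact absurd hw c4
        have c5' : 36 * (m : ℝ) ≤ 7 * (n : ℝ) ^ 2 := by exact_mod_cast c5
        by_cases c6 : 7 * n ^ 2 ≤ 48 * m
        · have c6' : 7 * (n : ℝ) ^ 2 ≤ 48 * m := by exact_mod_cast c6
          refine Arq_A (p := 3) h hn hm (by norm_num) ?_ ?_ ?_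
          · push_cast
            linarith
          · push_cast
            linarith
          · push_cast
            linarith
        · push Not at c6
          have c6' : 48 * (m : ℝ) < 7 * (n : ℝ) ^ 2 := by exact_mod_cast c6
          set r : ℝ := 7 * (n : ℝ) ^ 2 / (16 * m) with hr
          have hrm : r * (16 * m) = 7 * (n : ℝ) ^ 2 := by
            rw [hr]
            exact div_mul_cancel₀ _ (by positivity)
          have hr3 : 3 ≤ r := by
            rw [hr, le_div_iff₀ (by positivity)]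
            linarith
          have hp1 : r ≤ (⌈r⌉₊ : ℝ) := Nat.le_ceil r
          have hp2 : (⌈r⌉₊ : ℝ) < r + 1 := Nat.ceil_lt_add_one (by linarith)
          have hp3 : 1 ≤ ⌈r⌉₊ := by
            have : (1 : ℝ) ≤ (⌈r⌉₊ : ℝ) := by linarith
            exact_mod_cast this
          have hp4 : (⌈r⌉₊ : ℝ) ≤ 4 / 3 * r := by linarith
          have hrn : r ≤ n := by
            rw [hr, div_le_iff₀ (by positivity)]
            nlinarith
          refine Arq_A (p := ⌈r⌉₊) h hn hm hp3 ?_ ?_ ?_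
          · nlinarith
          · nlinarith
          · linarith
  · push Not at c2
    have c2' : 7 * (n : ℝ) ^ 2 < 18 * (m : ℝ) := by exact_mod_cast c2
    by_cases c7 : 12 ≤ n
    · have c7' : (12 : ℝ) ≤ n := by exact_mod_cast c7
      have h6 := key (x := 3 / 4) (c := 1) (δ := 1 / 7) hn hm (by linarith) (by nlinarith)
        (by linarith)
      have h7 := h.B 4 (by norm_num) (by omega)
      norm_num at h6 h7
      linarith
    · have hO' : 2 * n ^ 3 < m ^ 2 := by omega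
      have h1011 : n = 10 ∨ n = 11 := by omega
      rcases h1011 with h10 | h11
      · subst h10
        exfalso
        have : m ≤ 43 := by omega
        nlinarith
      · subst h11
        have hm52 : m ≤ 52 := by omega
        have hm52' : 52 ≤ m := by
          by_contra hcon
          push Not at hcon
          have : m ≤ 51 := by omega
          nlinarith
        have hm : m = 52 := by omega
        subst hm
        have h7 := h.A 1 le_rfl
        norm_num at h7 ⊢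
        linarith

end Pool.Agent.H93.EL
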