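import Pool.Agent.H93.EL.Ark

/-!
# Module Ars (130 lines): sparse graphs

PROOF. If `m² ≤ 2 n³` use `h.O` (for `sparse_factor` the factor is at most 1 and `m² / n² ≥ 0`).
Otherwise `big`: `n ≥ 10`, `2 m ≤ n² - n`, `m² > 2 n³`. Put `z = n² / (2 m)` (a real number); `z > 1`.
`round_z`: `p = round z` or `p = ⌊z + 1 / 2⌋₊` has `1 ≤ p`, `|z - p| ≤ 1 / 2`, so `p ≥ 2 z / 3` (for
`z ≤ 3 / 2` since `p ≥ 1`, for `z ≥ 3 / 2` since `p ≥ z - 1 / 2`), and `p ≤ z + 1 / 2`.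
`2 p ≤ n`: `z² = n⁴ / (4 m²) < n / 8`, and `(n / 2 - 1 / 2)² ≥ n / 8` for `n ≥ 10`, so `z ≤ n / 2 - 1 / 2`.
`m / n - (1 / p) n / 2 = n / (2 z) - n / (2 p) = n (p - z) / (2 z p)`.
`sparse`: by `key0` with `x = 1 / p`, `c = 1 / 4` we need `n² (p - z)² / (4 z² p²) ≤ n / (2 p) - 1 / 4`, that is
`n (p - z)² / (z² p) ≤ 2 - p / n`. The right side is at least `3 / 2`; the left side is at most
`(n / 4) / (z² (2 z / 3)) = 3 n / (8 z³) ≤ 3 / 2` since `2 m³ ≤ n⁵` gives `n ≤ 4 z³ = n⁶ / (2 m³)`.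
`sparse_factor`: by `h.A p` is `f ≥ m² / n² - n² (p - z)² / (4 z² p²) + n / (2 p) - 1 / 4`, the last two terms
have a sum `≥ 0` (`p ≤ 2 n`), `n² / (4 z²) = m² / n²` and `(p - z)² / p² ≤ (1 / 4) (9 / (4 z²)) =
9 / (16 z²) = 9 m² / (4 n⁴)`.
-/

set_option autoImplicit false

namespace Pool.Agent.H93.EL

theorem round_z {z : ℝ} (hz : 1 < z) : ∃ p : ℕ, 1 ≤ p ∧ |z - p| ≤ 1 / 2 ∧ 2 * z / 3 ≤ p := by
  have h0 : (0 : ℝ) ≤ z + 1 / 2 := by linarith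
  have h1 := Nat.floor_le h0
  have h2 := Nat.lt_floor_add_one (z + 1 / 2)
  have h3 : 1 ≤ ⌊z + 1 / 2⌋₊ := by
    apply Nat.le_floor
    push_cast
    linarith
  have h4 : (1 : ℝ) ≤ (⌊z + 1 / 2⌋₊ : ℝ) := by exact_mod_cast h3
  refine ⟨⌊z + 1 / 2⌋₊, h3, ?_, ?_⟩
  · rw [abs_le]
    constructor <;> linarith
  · rcases le_or_gt z (3 / 2) with h | h
    · linarith
    · linarith

/-- the common part of the two proofs -/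
private theorem Ars_main {n m : ℕ} (hm : m ≤ n.choose 2) (h1 : 1 ≤ m) (h : ¬ m ^ 2 ≤ 2 * n ^ 3) :
    ∃ p : ℕ, 1 ≤ p ∧ (0 : ℝ) < n ∧ (0 : ℝ) < m ∧ 2 * (p : ℝ) ≤ n ∧
      |(n : ℝ) ^ 2 / (2 * m) - p| ≤ 1 / 2 ∧ 2 * ((n : ℝ) ^ 2 / (2 * m)) / 3 ≤ p := by
  obtain ⟨h10, h2, h3⟩ := big hm h
  have hn : (10 : ℝ) ≤ n := by exact_mod_cast h10
  have hm0 : (0 : ℝ) < m := by exact_mod_cast h1
  have hn0 : (0 : ℝ) < n := by linarith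
  have hz : 1 < (n : ℝ) ^ 2 / (2 * m) := by
    rw [lt_div_iff₀ (by positivity)]
    linarith
  obtain ⟨p, hp1, hp2, hp3⟩ := round_z hz
  refine ⟨p, hp1, hn0, hm0, ?_, hp2, hp3⟩
  have hzz : ((n : ℝ) ^ 2 / (2 * m)) ^ 2 < n / 8 := by
    rw [div_pow, div_lt_div_iff₀ (by positivity) (by norm_num)]
    have : (n : ℝ) * (2 * (n : ℝ) ^ 3) < n * (m : ℝ) ^ 2 := mul_lt_mul_of_pos_left h3 hn0
    nlinarith
  have hzn : (n : ℝ) ^ 2 / (2 * m) ≤ n / 2 - 1 / 2 := by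
    by_contra hc
    push Not at hc
    have hc0 : 0 < (n : ℝ) / 2 - 1 / 2 := by linarith
    nlinarith
  rw [abs_le] at hp2
  linarith [hp2.1]

theorem sparse {n m : ℕ} {f : ℝ} (h : Bds n m f) (hs : 2 * m ^ 3 ≤ n ^ 5) :
    (m : ℝ) ^ 2 / (n : ℝ) ^ 2 ≤ f := by
  by_cases hO : m ^ 2 ≤ 2 * n ^ 3
  · exact h.O hO
  obtain ⟨p, hp1, hn0, hm0, hpn, habs, hp3⟩ := Ars_main h.le h.one hO
  have hp0 : (0 : ℝ) < p := by
    have : (1 : ℝ) ≤ p := by exact_mod_cast hp1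
    linarith
  have hs' : 2 * (m : ℝ) ^ 3 ≤ (n : ℝ) ^ 5 := by exact_mod_cast hs
  obtain ⟨z, hzdef⟩ : ∃ z : ℝ, z = (n : ℝ) ^ 2 / (2 * m) := ⟨_, rfl⟩
  have hz0 : 0 < z := by rw [hzdef]; positivity
  rw [← hzdef] at habs hp3
  have hmn : (m : ℝ) / n = n / (2 * z) := by
    rw [hzdef]
    field_simp
  have hnz : (n : ℝ) ≤ 4 * z ^ 3 := by
    have e : 4 * z ^ 3 = (n : ℝ) ^ 6 / (2 * (m : ℝ) ^ 3) := by
      rw [hzdef]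
      field_simp
      ring
    rw [e, le_div_iff₀ (by positivity)]
    nlinarith
  have hnp : (n : ℝ) ≤ 6 * z ^ 2 * p := by
    have : 6 * z ^ 2 * (2 * z / 3) ≤ 6 * z ^ 2 * p := mul_le_mul_of_nonneg_left hp3 (by positivity)
    nlinarith
  have hsq : (z - p) ^ 2 ≤ 1 / 4 := by
    have := abs_le.1 habs
    nlinarith [this.1, this.2]
  have hA := h.A p hp1
  have hk : ((m : ℝ) / n - 1 / p * n / 2) ^ 2 ≤ 1 / p * n / 2 - 1 / 4 := by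
    rw [hmn]
    have e1 : ((n : ℝ) / (2 * z) - 1 / p * n / 2) ^ 2 =
        (n : ℝ) ^ 2 * (z - p) ^ 2 / (4 * z ^ 2 * (p : ℝ) ^ 2) := by
      field_simp
      ring
    have e2 : (n : ℝ) ^ 2 * (z - p) ^ 2 / (4 * z ^ 2 * (p : ℝ) ^ 2) ≤
        (n : ℝ) ^ 2 * (1 / 4) / (4 * z ^ 2 * (p : ℝ) ^ 2) := by
      gcongr
    have e3 : (n : ℝ) ^ 2 * (1 / 4) / (4 * z ^ 2 * (p : ℝ) ^ 2) ≤ 3 * n / (8 * p) := by
      rw [div_le_div_iff₀ (by positivity) (by positivity)]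
      have : (n : ℝ) * n * p ≤ n * (6 * z ^ 2 * p) * p := by gcongr
      nlinarith
    have e4 : (1 : ℝ) / 4 ≤ n / (8 * p) := by
      rw [div_le_div_iff₀ (by norm_num) (by positivity)]
      linarith
    have e5 : 1 / (p : ℝ) * n / 2 = 3 * n / (8 * p) + n / (8 * p) := by
      field_simp
      ring
    rw [e1, e5]
    linarith
  have hkey := key0 (x := 1 / p) (c := 1 / 4) hn0 hk
  have e6 : 1 / (p : ℝ) * m - (1 / (p : ℝ)) ^ 2 * (n : ℝ) ^ 2 / 4 + 1 / (p : ℝ) * n / 2 - 1 / 4 =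
      (m : ℝ) / p - (n : ℝ) ^ 2 / (4 * p ^ 2) + n / (2 * p) - 1 / 4 := by
    field_simp
  rw [e6] at hkey
  exact hkey.trans hA

theorem sparse_factor {n m : ℕ} {f : ℝ} (h : Bds n m f) :
    (1 - 9 * (m : ℝ) ^ 2 / (4 * (n : ℝ) ^ 4)) * ((m : ℝ) ^ 2 / (n : ℝ) ^ 2) ≤ f := by
  by_cases hO : m ^ 2 ≤ 2 * n ^ 3
  · have h1 := h.O hO
    have h2 : 0 ≤ 9 * (m : ℝ) ^ 2 / (4 * (n : ℝ) ^ 4) := by positivity
    have h3 : 0 ≤ (m : ℝ) ^ 2 / (n : ℝ) ^ 2 := by positivity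
    nlinarith
  obtain ⟨p, hp1, hn0, hm0, hpn, habs, hp3⟩ := Ars_main h.le h.one hO
  have hp0 : (0 : ℝ) < p := by
    have : (1 : ℝ) ≤ p := by exact_mod_cast hp1
    linarith
  obtain ⟨z, hzdef⟩ : ∃ z : ℝ, z = (n : ℝ) ^ 2 / (2 * m) := ⟨_, rfl⟩
  have hz0 : 0 < z := by rw [hzdef]; positivity
  rw [← hzdef] at habs hp3
  have hsq : (z - p) ^ 2 ≤ 1 / 4 := by
    have := abs_le.1 habs
    nlinarith [this.1, this.2]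
  have hA := h.A p hp1
  have e1 : (m : ℝ) / p - (n : ℝ) ^ 2 / (4 * p ^ 2) =
      (1 - (z - p) ^ 2 / (p : ℝ) ^ 2) * ((m : ℝ) ^ 2 / (n : ℝ) ^ 2) := by
    rw [hzdef]
    field_simp
    ring
  have e2 : (z - p) ^ 2 / (p : ℝ) ^ 2 ≤ 9 * (m : ℝ) ^ 2 / (4 * (n : ℝ) ^ 4) := by
    have e3 : 9 * (m : ℝ) ^ 2 / (4 * (n : ℝ) ^ 4) = (1 / 4) / (2 * z / 3) ^ 2 := by
      rw [hzdef]
      field_simp
      ring
    rw [e3]
    gcongr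
  have e4 : (1 : ℝ) / 4 ≤ n / (2 * p) := by
    rw [div_le_div_iff₀ (by norm_num) (by positivity)]
    linarith
  have h3 : 0 ≤ (m : ℝ) ^ 2 / (n : ℝ) ^ 2 := by positivity
  have e5 : (1 - 9 * (m : ℝ) ^ 2 / (4 * (n : ℝ) ^ 4)) * ((m : ℝ) ^ 2 / (n : ℝ) ^ 2) ≤
      (1 - (z - p) ^ 2 / (p : ℝ) ^ 2) * ((m : ℝ) ^ 2 / (n : ℝ) ^ 2) :=
    mul_le_mul_of_nonneg_right (by linarith) h3
  linarith

end Pool.Agent.H93.EL
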