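import Pool.Agent.H93.EL.Far

/-!
# Module CutA (110 lines): a line cutting off prescribed numbers of two separated sets

PROOF. `switch` with `R A = ((A ∩ P).card = α)` and `Φ A = (A ∩ Q).card`, `a = β`.
`hex`: `low_chain` from `∅` to `V` (`V ∩ P = P`). `h1`: `s` from `far_left`; `low_chain` from `∅` to `V` with
the set `P ∪ Q` and `k = α` gives `A` with `(A ∩ (P ∪ Q)).card = α`. No `q ∈ Q` is in `A`: otherwise every
`p ∈ P` has `gh p < gh q`, so `p ∈ A` (else `gh q ≤ gh p` by `Low`), so `A ∩ (P ∪ Q)` contains `P` and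
`q ∉ P` (`hPQ`, irreflexivity), at least `P.card + 1 > α` points. So `A ∩ Q = ∅` and
`A ∩ P = A ∩ (P ∪ Q)`, `R A`, `Φ A = 0 ≤ β`. `h2`: `s` from `far_right`, the set `P ∪ Q` and
`k = Q.card + α`. Every `q ∈ Q` is in `A`: otherwise no `p ∈ P` is in `A` (`p ∈ A` gives `gh p ≤ gh q`, but
`gh q < gh p`), so `A ∩ (P ∪ Q)` is contained in `Q \ {q}`, fewer than `Q.card` points. So
`A ∩ (P ∪ Q) = Q ∪ (A ∩ P)` (disjoint), `(A ∩ P).card = α` and `Φ A = Q.card ≥ β`.
Now `A`, `B` from `switch`. `low_two`: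
* `A ⊆ B`: `low_chain` with the set `Q`, `k = β` gives `C` with `A ⊆ C ⊆ B`, `(C ∩ Q).card = β`, and
  `(C ∩ P).card = α` by monotonicity (`(A ∩ P).card ≤ (C ∩ P).card ≤ (B ∩ P).card`). `low_cut`.
* `B ⊆ A`: `(B ∩ Q).card ≤ (A ∩ Q).card ≤ β ≤ (B ∩ Q).card`, take `B`.
* `A = insert u C`, `B = insert v C`: `(B ∩ Q).card ≤ (C ∩ Q).card + 1 ≤ (A ∩ Q).card + 1`. So
  `(A ∩ Q).card = β` (take `A`) or `(B ∩ Q).card = β` (take `B`).
-/

set_option autoImplicit false

namespace Pool.Agent.H93.EL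

open Finset Pool.Agent.H68
open scoped Classical

private theorem cutA_mono {A C P : Finset (Pt 2)} (h : A ⊆ C) : (A ∩ P).card ≤ (C ∩ P).card :=
  card_le_card (inter_subset_inter h (Subset.refl _))

private theorem cutA_insert {C P : Finset (Pt 2)} (v : Pt 2) :
    (insert v C ∩ P).card ≤ (C ∩ P).card + 1 := by
  have hsub : insert v C ∩ P ⊆ insert v (C ∩ P) := by
    intro x hx
    rcases mem_inter.mp hx with ⟨hx1, hx2⟩
    rcases mem_insert.mp hx1 with h | h
    · exact mem_insert.mpr (Or.inl h)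
    · exact mem_insert.mpr (Or.inr (mem_inter.mpr ⟨h, hx2⟩))
  exact (card_le_card hsub).trans (card_insert_le _ _)

theorem cutA {V : Finset (Pt 2)} {ε : ℝ} (hF : Frame V ε) {P Q : Finset (Pt 2)} (hP : P ⊆ V)
    (hQ : Q ⊆ V) (hPQ : ∀ p ∈ P, ∀ q ∈ Q, gx ε p < gx ε q) {α β : ℕ} (hα : α ≤ P.card)
    (hβ : β ≤ Q.card) :
    ∃ A, IsCut V A ∧ (A ∩ P).card = α ∧ (A ∩ Q).card = β := by
  have hPQd : Disjoint P Q := by
    rw [Finset.disjoint_left]
    intro x hx hx'
    exact lt_irrefl _ (hPQ x hx x hx')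
  have hex : ∀ s, ∃ A, Low V ε s A ∧ (A ∩ P).card = α := by
    intro s
    obtain ⟨C, hC, -, -, h⟩ := low_chain (P := P) (k := α) (low_empty V ε s) (low_self V ε s)
      (empty_subset V) (by simp) (by rw [inter_eq_right.mpr hP]; exact hα)
    exact ⟨C, hC, h⟩
  have h1 : ∃ s A, Low V ε s A ∧ (A ∩ P).card = α ∧ (A ∩ Q).card ≤ β := by
    obtain ⟨s, hs⟩ := far_left V ε
    obtain ⟨A, hA, -, -, h⟩ := low_chain (P := P ∪ Q) (k := α) (low_empty V ε s)
      (low_self V ε s) (empty_subset V) (by simp)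
      (by rw [inter_eq_right.mpr (union_subset hP hQ)]
          exact hα.trans (card_le_card subset_union_left))
    have hq : ∀ q ∈ Q, q ∉ A := by
      intro q hq hqA
      have hPA : P ⊆ A := by
        intro p hp
        by_contra hpA
        exact absurd (hA.2 q hqA p (hP hp) hpA)
          (not_le.mpr (hs p (hP hp) q (hQ hq) (hPQ p hp q hq)))
      have hsub : insert q P ⊆ A ∩ (P ∪ Q) := by
        intro x hx
        rcases mem_insert.mp hx with rfl | hx
        · exact mem_inter.mpr ⟨hqA, mem_union_right _ hq⟩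
        · exact mem_inter.mpr ⟨hPA hx, mem_union_left _ hx⟩
      have h3 := card_le_card hsub
      rw [card_insert_of_notMem (fun hqP => lt_irrefl _ (hPQ q hqP q hq)), h] at h3
      omega
    have e : A ∩ Q = ∅ := by
      rw [Finset.eq_empty_iff_forall_notMem]
      intro x hx
      exact hq x (mem_inter.mp hx).2 (mem_inter.mp hx).1
    have e2 : A ∩ P = A ∩ (P ∪ Q) := by rw [inter_union_distrib_left, e, union_empty]
    refine ⟨s, A, hA, by rw [e2, h], by rw [e]; simp⟩
  have h2 : ∃ s A, Low V ε s A ∧ (A ∩ P).card = α ∧ β ≤ (A ∩ Q).card := by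
    obtain ⟨s, hs⟩ := far_right V ε
    obtain ⟨A, hA, -, -, h⟩ := low_chain (P := P ∪ Q) (k := Q.card + α) (low_empty V ε s)
      (low_self V ε s) (empty_subset V) (by simp)
      (by rw [inter_eq_right.mpr (union_subset hP hQ), card_union_of_disjoint hPQd]
          omega)
    have hq : Q ⊆ A := by
      intro q hq
      by_contra hqA
      have hPA : ∀ p ∈ P, p ∉ A := fun p hp hpA => absurd (hA.2 p hpA q (hQ hq) hqA)
        (not_le.mpr (hs p (hP hp) q (hQ hq) (hPQ p hp q hq)))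
      have hsub : A ∩ (P ∪ Q) ⊆ Q.erase q := by
        intro x hx
        rcases mem_inter.mp hx with ⟨hxA, hx⟩
        rcases mem_union.mp hx with hx | hx
        · exact absurd hxA (hPA x hx)
        · exact mem_erase.mpr ⟨fun e => hqA (e ▸ hxA), hx⟩
      have h3 := card_le_card hsub
      rw [h] at h3
      have h4 := card_erase_lt_of_mem hq
      omega
    have e : A ∩ Q = Q := inter_eq_right.mpr hq
    have e2 : (A ∩ (P ∪ Q)).card = (A ∩ P).card + Q.card := by
      rw [inter_union_distrib_left, e, card_union_of_disjoint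
        (disjoint_of_subset_left inter_subset_right hPQd)]
    refine ⟨s, A, hA, by omega, by rw [e]; exact hβ⟩
  obtain ⟨s, A, B, ⟨hA, hAP, hAQ⟩, hB, hBP, hBQ⟩ :=
    switch (fun A => (A ∩ P).card = α) (fun A => (A ∩ Q).card) β hex h1 h2
  change (A ∩ P).card = α at hAP
  change (B ∩ P).card = α at hBP
  change (A ∩ Q).card ≤ β at hAQ
  change β ≤ (B ∩ Q).card at hBQ
  rcases low_two hF hA hB with h | h | ⟨C, u, v, hu, hv, hAu, hBv⟩
  · obtain ⟨C, hC, hAC, hCB, hCQ⟩ := low_chain (P := Q) hA hB h hAQ hBQ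
    refine ⟨C, low_cut hF hC, ?_, hCQ⟩
    have h3 := cutA_mono (P := P) hAC
    have h4 := cutA_mono (P := P) hCB
    omega
  · have h3 := cutA_mono (P := Q) h
    exact ⟨B, low_cut hF hB, hBP, by omega⟩
  · have h3 : (C ∩ Q).card ≤ (A ∩ Q).card := cutA_mono (by rw [hAu]; exact subset_insert _ _)
    have h4 : (B ∩ Q).card ≤ (C ∩ Q).card + 1 := by rw [hBv]; exact cutA_insert v
    by_cases he : (A ∩ Q).card = β
    · exact ⟨A, low_cut hF hA, hAP, he⟩
    · exact ⟨B, low_cut hF hB, hBP, by omega⟩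

end Pool.Agent.H93.EL
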