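import Pool.Agent.H93.EL.Far

/-!
# Module CutB (120 lines): halving lines with a prescribed twist

Notation: `Y A = symmDiff A X`. PROOF. `switch` with `R A = (A.card = h)` and
`Φ A = (symmDiff A X ∩ P).card`. `hex`: `low_chain` from `∅` to `V` with `P = V`, `k = h` (`A ∩ V = A`).
`h1`: `s` from `far_left`; `X` itself is a lower part (`hX`), `Φ X = 0`. `h2`: `s` from `far_right`; let `A` be
a lower part with `h` elements for this `s`. `A` consists of the rightmost points: for `p ∈ A`,
`q ∈ V \ A` is `gx ε q < gx ε p` (otherwise `gx ε p < gx ε q` by `Frame.inj`, `gh q < gh p`). Claim: `A` and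
`X` are disjoint: if `x ∈ A ∩ X` then every `q ∈ V \ A` has `gx q < gx x`, so is in `X` (otherwise
`gx x < gx q` by `hX`), so `V \ A ⊆ X`, and `x` is not in `V \ A`, so `V.card - h + 1 ≤ h`, contradiction
to `2 * h ≤ V.card`. So `symmDiff A X = A ∪ X` has `2 * h ≥ V.card - 1` elements, all in `V`, so at most one
point of `P` is not in it: `Φ A ≥ P.card - 1 ≥ a`.
`A`, `B` from `switch`; `low_two`: if `A ⊆ B` or `B ⊆ A` then `A = B` (`Finset.eq_of_subset_of_card_le`) and
`Φ A = a`: take `A`. Otherwise `A = insert u C`, `B = insert v C`; then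
`symmDiff B X ⊆ symmDiff A X ∪ {u, v}`, so `Φ B ≤ Φ A + 2`; with `Φ A ≤ a ≤ Φ B`: `Φ A = a` (take `A`), or
`Φ A = a - 1` and `Φ B ∈ {a, a + 1}` (take `B`), or `Φ A = a - 2` and `Φ B = a` (take `B`). `low_cut`.
-/

set_option autoImplicit false

namespace Pool.Agent.H93.EL

open Finset Pool.Agent.H68
open scoped Classical

theorem cutB {V : Finset (Pt 2)} {ε : ℝ} (hF : Frame V ε) {X P : Finset (Pt 2)} {h : ℕ}
    (hXV : X ⊆ V) (hXc : X.card = h) (hX : ∀ p ∈ X, ∀ q ∈ V, q ∉ X → gx ε p < gx ε q)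
    (h1 : 2 * h ≤ V.card) (h2 : V.card ≤ 2 * h + 1) (hP : P ⊆ V) {a : ℕ} (ha : a + 1 ≤ P.card) :
    ∃ A, IsCut V A ∧ A.card = h ∧
      ((symmDiff A X ∩ P).card = a ∨ (symmDiff A X ∩ P).card = a + 1) := by
  have hex : ∀ s, ∃ A, Low V ε s A ∧ A.card = h := by
    intro s
    obtain ⟨C, hC, -, hCV, hc⟩ := low_chain (low_empty V ε s) (low_self V ε s) (empty_subset _)
      (P := V) (k := h) (by simp) (by rw [inter_self]; omega)
    rw [inter_eq_left.2 hCV] at hc
    exact ⟨C, hC, hc⟩
  have h1' : ∃ s A, Low V ε s A ∧ A.card = h ∧ (symmDiff A X ∩ P).card ≤ a := by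
    obtain ⟨s, hs⟩ := far_left V ε
    refine ⟨s, X, ⟨hXV, fun p hp q hq hqX => (hs p (hXV hp) q hq (hX p hp q hq hqX)).le⟩, hXc, ?_⟩
    have h3 : symmDiff X X = (∅ : Finset (Pt 2)) := by
      rw [symmDiff_self]; rfl
    rw [h3, empty_inter, card_empty]
    exact Nat.zero_le _
  have h2' : ∃ s A, Low V ε s A ∧ A.card = h ∧ a ≤ (symmDiff A X ∩ P).card := by
    obtain ⟨s, hs⟩ := far_right V ε
    obtain ⟨A, hA, hAc⟩ := hex s
    refine ⟨s, A, hA, hAc, ?_⟩
    have hgt : ∀ p ∈ A, ∀ q ∈ V, q ∉ A → gx ε q < gx ε p := by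
      intro p hp q hq hqA
      by_contra hc
      push Not at hc
      have hne : gx ε p ≠ gx ε q := by
        intro he
        have h4 := hF.inj p (hA.1 hp) q hq he
        exact hqA (h4 ▸ hp)
      have h5 := hs p (hA.1 hp) q hq (lt_of_le_of_ne hc hne)
      exact absurd (hA.2 p hp q hq hqA) (not_le.2 h5)
    have hdisj : Disjoint A X := by
      rw [Finset.disjoint_left]
      intro x hxA hxX
      have hsub : V \ A ⊆ X := by
        intro q hq
        obtain ⟨hqV, hqA⟩ := mem_sdiff.1 hq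
        by_contra hqX
        exact lt_asymm (hgt x hxA q hqV hqA) (hX x hxX q hqV hqX)
      have hx : x ∉ V \ A := fun hx => (mem_sdiff.1 hx).2 hxA
      have h3 : (insert x (V \ A)).card ≤ X.card :=
        card_le_card (insert_subset hxX hsub)
      rw [card_insert_of_notMem hx, card_sdiff_of_subset hA.1, hAc, hXc] at h3
      omega
    have hsy : symmDiff A X = A ∪ X := hdisj.symmDiff_eq_sup
    have hAX : A ∪ X ⊆ V := union_subset hA.1 hXV
    have hc : (A ∪ X).card = 2 * h := by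
      rw [card_union_of_disjoint hdisj, hAc, hXc]; ring
    have h4 : (P \ (A ∪ X)).card ≤ 1 := by
      have h5 : (P \ (A ∪ X)).card ≤ (V \ (A ∪ X)).card :=
        card_le_card (sdiff_subset_sdiff hP (Subset.refl _))
      rw [card_sdiff_of_subset hAX, hc] at h5
      omega
    have h5 : (P ∩ (A ∪ X)).card + (P \ (A ∪ X)).card = P.card := card_inter_add_card_sdiff P _
    rw [hsy, inter_comm]
    omega
  obtain ⟨s, A, B, ⟨hA, hAc, hAa⟩, hB, hBc, hBa⟩ := switch (V := V) (ε := ε)
    (fun A => A.card = h) (fun A => (symmDiff A X ∩ P).card) a hex h1' h2'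
  rcases low_two hF hA hB with hs | hs | ⟨C, u, v, hu, hv, rfl, rfl⟩
  · have he : A = B := eq_of_subset_of_card_le hs (by rw [hAc, hBc])
    subst he
    exact ⟨A, low_cut hF hA, hAc, Or.inl (le_antisymm hAa hBa)⟩
  · have he : B = A := eq_of_subset_of_card_le hs (by rw [hAc, hBc])
    subst he
    exact ⟨B, low_cut hF hA, hAc, Or.inl (le_antisymm hAa hBa)⟩
  · have hsub : symmDiff (insert v C) X ∩ P ⊆ (symmDiff (insert u C) X ∩ P) ∪ {u, v} := by
      intro t ht
      simp only [mem_union, mem_inter, mem_symmDiff, mem_insert, mem_singleton] at ht ⊢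
      tauto
    have h3 : (symmDiff (insert v C) X ∩ P).card ≤ (symmDiff (insert u C) X ∩ P).card + 2 := by
      refine (card_le_card hsub).trans ((card_union_le _ _).trans ?_)
      have := Finset.card_le_two (a := u) (b := v)
      omega
    by_cases hAe : (symmDiff (insert u C) X ∩ P).card = a
    · exact ⟨_, low_cut hF hA, hAc, Or.inl hAe⟩
    · refine ⟨_, low_cut hF hB, hBc, ?_⟩
      omega

end Pool.Agent.H93.EL
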