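import Pool.Agent.H93.EL.Str
import Pool.Agent.H93.EL.Chn

/-!
# Module Far (100 lines): directions far to the left and to the right; the vertical cut;
two closed conditions

PROOF. `far_left`: `gh ε s p < gh ε s q` is `p 1 - q 1 < s (gx ε p - gx ε q)`; for `gx ε p < gx ε q` this holds
for all `s` smaller than `(p 1 - q 1) / (gx ε p - gx ε q)`; take `s` below the finitely many values of
these quotients (`Finset.exists_le` for the image of `V ×ˢ V`, or `(V ×ˢ V).inf'`, or minus the sum of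
all absolute values minus 1). `far_right`: in the same way for `s` above all quotients.

`vert`: `s` from `far_left`; `low_chain` from `∅` to `V` with `P = V`, `k = h` gives a lower part `X` with
`(X ∩ V).card = h`, `X ∩ V = X`. `low_cut`. For `p ∈ X`, `q ∈ V \ X`: if `gx ε q < gx ε p` then
`gh ε s q < gh ε s p`, contradiction to `Low`; and `gx ε p = gx ε q` would give `p = q`.

`closed_low`: for a fixed `A` the set `{s | Low V ε s A}` is closed: it is empty or a finite intersection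
of the closed sets `{s | gh ε s p ≤ gh ε s q}` (`isClosed_le`, `gh` is continuous in `s`); e.g. write it as
`{s | A ⊆ V} ∩ ⋂ p ∈ A, ⋂ q ∈ V.filter (· ∉ A), {s | ..}`.
`switch`: the sets `T = {s | ∃ A, Low V ε s A ∧ R A ∧ Φ A ≤ a}` and `T' = {s | ∃ A, .. ∧ a ≤ Φ A}` are finite
unions over `A ∈ V.powerset` of closed sets, so closed; they cover `ℝ` by `hex` (`le_total`), and are
nonempty. `ℝ` is connected: `isPreconnected_univ` and `isPreconnected_closed_iff`.
-/

set_option autoImplicit false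

namespace Pool.Agent.H93.EL

open Finset Pool.Agent.H68
open scoped Classical

theorem far_left (V : Finset (Pt 2)) (ε : ℝ) :
    ∃ s : ℝ, ∀ p ∈ V, ∀ q ∈ V, gx ε p < gx ε q → gh ε s p < gh ε s q := by
  have h : ∀ᶠ s : ℝ in Filter.atBot,
      ∀ p ∈ V, ∀ q ∈ V, gx ε p < gx ε q → gh ε s p < gh ε s q := by
    rw [Filter.eventually_all_finset]
    intro p _
    rw [Filter.eventually_all_finset]
    intro q _
    by_cases hpq : gx ε p < gx ε q
    · filter_upwards [Filter.eventually_lt_atBot ((p 1 - q 1) / (gx ε p - gx ε q))] with s hs _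
      have h1 : gx ε p - gx ε q < 0 := sub_neg.2 hpq
      rw [lt_div_iff_of_neg h1] at hs
      unfold gh
      linarith
    · exact Filter.Eventually.of_forall fun s h => absurd h hpq
  exact h.exists

theorem far_right (V : Finset (Pt 2)) (ε : ℝ) :
    ∃ s : ℝ, ∀ p ∈ V, ∀ q ∈ V, gx ε p < gx ε q → gh ε s q < gh ε s p := by
  have h : ∀ᶠ s : ℝ in Filter.atTop,
      ∀ p ∈ V, ∀ q ∈ V, gx ε p < gx ε q → gh ε s q < gh ε s p := by
    rw [Filter.eventually_all_finset]
    intro p _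
    rw [Filter.eventually_all_finset]
    intro q _
    by_cases hpq : gx ε p < gx ε q
    · filter_upwards [Filter.eventually_gt_atTop ((p 1 - q 1) / (gx ε p - gx ε q))] with s hs _
      have h1 : gx ε p - gx ε q < 0 := sub_neg.2 hpq
      rw [div_lt_iff_of_neg h1] at hs
      unfold gh
      linarith
    · exact Filter.Eventually.of_forall fun s h => absurd h hpq
  exact h.exists

theorem vert {V : Finset (Pt 2)} {ε : ℝ} (hF : Frame V ε) {h : ℕ} (hh : h ≤ V.card) :
    ∃ X ⊆ V, X.card = h ∧ IsCut V X ∧ ∀ p ∈ X, ∀ q ∈ V, q ∉ X → gx ε p < gx ε q := by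
  obtain ⟨s, hs⟩ := far_left V ε
  obtain ⟨X, hX, -, h2, h3⟩ := low_chain (P := V) (k := h) (low_empty V ε s) (low_self V ε s)
    (empty_subset V) (by simp) (by simpa using hh)
  have h4 : X ∩ V = X := inter_eq_left.2 h2
  rw [h4] at h3
  refine ⟨X, h2, h3, low_cut hF hX, fun p hp q hq hqX => ?_⟩
  by_contra hc
  rcases (not_lt.1 hc).lt_or_eq with h5 | h5
  · exact absurd (hs q hq p (h2 hp) h5) (not_lt.2 (hX.2 p hp q hq hqX))
  · have h6 := hF.inj q hq p (h2 hp) h5
    rw [h6] at hqX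
    exact hqX hp

private theorem Far_cont (ε : ℝ) (p : Pt 2) : Continuous fun s : ℝ => gh ε s p := by
  unfold gh
  fun_prop

private theorem Far_closed (V : Finset (Pt 2)) (ε : ℝ) (A : Finset (Pt 2)) :
    IsClosed {s : ℝ | Low V ε s A} := by
  by_cases hA : A ⊆ V
  · have h1 : {s : ℝ | Low V ε s A} =
        ⋂ p ∈ A, ⋂ q ∈ V, ⋂ _ : q ∉ A, {s : ℝ | gh ε s p ≤ gh ε s q} := by
      ext s
      simp only [Set.mem_iInter]
      exact ⟨fun h => h.2, fun h => ⟨hA, h⟩⟩
    rw [h1]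
    exact isClosed_iInter fun p => isClosed_iInter fun _ => isClosed_iInter fun q =>
      isClosed_iInter fun _ => isClosed_iInter fun _ =>
        isClosed_le (Far_cont ε p) (Far_cont ε q)
  · have h1 : {s : ℝ | Low V ε s A} = ∅ := by
      ext s
      exact ⟨fun h => absurd h.1 hA, fun h => absurd h (Set.notMem_empty s)⟩
    rw [h1]
    exact isClosed_empty

private theorem Far_T (V : Finset (Pt 2)) (ε : ℝ) (Q : Finset (Pt 2) → Prop) :
    IsClosed {s : ℝ | ∃ A, Low V ε s A ∧ Q A} := by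
  have h1 : {s : ℝ | ∃ A, Low V ε s A ∧ Q A} =
      ⋃ A ∈ (V.powerset.filter Q : Finset (Finset (Pt 2))), {s : ℝ | Low V ε s A} := by
    ext s
    simp only [Set.mem_iUnion, mem_filter, mem_powerset]
    constructor
    · rintro ⟨A, h, hQ⟩
      exact ⟨A, ⟨h.1, hQ⟩, h⟩
    · rintro ⟨A, ⟨-, hQ⟩, h⟩
      exact ⟨A, h, hQ⟩
  rw [h1]
  exact isClosed_biUnion_finset fun A _ => Far_closed V ε A

/-- passing from small to large values of `Φ` among the lower parts with the property `R` -/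
theorem switch {V : Finset (Pt 2)} {ε : ℝ} (R : Finset (Pt 2) → Prop) (Φ : Finset (Pt 2) → ℕ)
    (a : ℕ) (hex : ∀ s, ∃ A, Low V ε s A ∧ R A) (h1 : ∃ s A, Low V ε s A ∧ R A ∧ Φ A ≤ a)
    (h2 : ∃ s A, Low V ε s A ∧ R A ∧ a ≤ Φ A) :
    ∃ s A B, (Low V ε s A ∧ R A ∧ Φ A ≤ a) ∧ (Low V ε s B ∧ R B ∧ a ≤ Φ B) := by
  have hT := Far_T V ε fun A => R A ∧ Φ A ≤ a
  have hT' := Far_T V ε fun A => R A ∧ a ≤ Φ A
  have hcov : (Set.univ : Set ℝ) ⊆ {s : ℝ | ∃ A, Low V ε s A ∧ (R A ∧ Φ A ≤ a)} ∪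
      {s : ℝ | ∃ A, Low V ε s A ∧ (R A ∧ a ≤ Φ A)} := by
    intro s _
    obtain ⟨A, hA, hR⟩ := hex s
    rcases le_total (Φ A) a with h | h
    · exact Or.inl ⟨A, hA, hR, h⟩
    · exact Or.inr ⟨A, hA, hR, h⟩
  obtain ⟨s₁, A₁, hA₁⟩ := h1
  obtain ⟨s₂, A₂, hA₂⟩ := h2
  obtain ⟨s, -, ⟨A, hA⟩, ⟨B, hB⟩⟩ := isPreconnected_closed_iff.1
    (isPreconnected_univ (α := ℝ)) _ _ hT hT' hcov ⟨s₁, Set.mem_univ _, A₁, hA₁⟩
    ⟨s₂, Set.mem_univ _, A₂, hA₂⟩
  exact ⟨s, A, B, hA, hB⟩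

end Pool.Agent.H93.EL
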