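import Pool.Agent.H93.EL.Fv
import Pool.Agent.H93.EL.Arp
import Pool.Agent.H93.EL.Arq
import Pool.Agent.H93.EL.Ars
import Pool.Agent.H93.EL.Ard

/-!
# MP_737bdd_co: the conjecture of Erdős, Lovász, Simmons and Straus up to the factor 24 / 25
-/

set_option autoImplicit false

namespace Pool.Agent.H93.EL

open Pool.Agent.H68

theorem main (n m : ℕ) (hm1 : 1 ≤ m) (hmn : m ≤ n.choose 2) :
    -- the factor 24 / 25 for all numbers of edges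
    (24 / 25 * ((m : ℝ) ^ 2 / (n : ℝ) ^ 2) ≤ (fval 2 2 1 m n : ℝ)) ∧
    -- the factor 48 / 49 outside of a window
    (36 * m ≤ 7 * n ^ 2 ∨ 7 * n ^ 2 ≤ 32 * m →
      48 / 49 * ((m : ℝ) ^ 2 / (n : ℝ) ^ 2) ≤ (fval 2 2 1 m n : ℝ)) ∧
    -- a factor which tends to 1 for sparse graphs
    ((1 - 9 * (m : ℝ) ^ 2 / (4 * (n : ℝ) ^ 4)) * ((m : ℝ) ^ 2 / (n : ℝ) ^ 2) ≤
      (fval 2 2 1 m n : ℝ)) ∧
    -- the conjecture for sparse and for dense graphs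
    (2 * m ^ 3 ≤ n ^ 5 ∨ m ^ 2 ≤ 2 * n ^ 3 ∨
        (4 * m ≤ n * (n - 1) ∧ 4 * m ^ 2 + 17 * n ^ 2 ≤ 12 * n ^ 3) ∨
        16 * (n.choose 2 - m) ^ 4 ≤ n ^ 7 →
      (m : ℝ) ^ 2 / (n : ℝ) ^ 2 ≤ (fval 2 2 1 m n : ℝ)) ∧
    -- the error is quadratic in the distance of `2 m / n²` to `1 / p`
    (∀ p : ℕ, 1 ≤ p →
      (m : ℝ) ^ 2 / (n : ℝ) ^ 2 - ((m : ℝ) / n - n / (2 * p)) ^ 2 + n / (2 * p) - 1 / 4 ≤
        (fval 2 2 1 m n : ℝ)) ∧
    -- the error is quadratic in the distance of `2 m / n²` to `1 - 1 / N`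
    (∀ N : ℕ, 1 ≤ N → N * (N - 1) ≤ n →
      (m : ℝ) ^ 2 / (n : ℝ) ^ 2 - ((m : ℝ) / n - (1 - 1 / (N : ℝ)) * n / 2) ^ 2 +
        (1 - 1 / (N : ℝ)) * n / 2 - N / 4 ≤ (fval 2 2 1 m n : ℝ)) := by
  have h := bds hm1 hmn
  have hn : (n : ℝ) ≠ 0 := by
    intro h0
    have h1 : n = 0 := by exact_mod_cast h0
    subst h1
    simp at hmn
    omega
  refine ⟨factor_twentyfour h, factor_fortyeight h, sparse_factor h, ?_, ?_, ?_⟩
  · rintro (h1 | h1 | h1 | h1)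
    · exact sparse h h1
    · exact old n m hm1 hmn (Or.inl h1)
    · exact old n m hm1 hmn (Or.inr h1)
    · exact dense h h1
  · intro p hp
    refine le_trans (le_of_eq ?_) (h.A p hp)
    have hp0 : (p : ℝ) ≠ 0 := by
      have : (0 : ℝ) < p := by exact_mod_cast hp
      exact this.ne'
    field_simp
    ring
  · intro N hN hNn
    refine le_trans (le_of_eq ?_) (h.B N hN hNn)
    field_simp
    ring

end Pool.Agent.H93.EL
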