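import Pool.Agent.H93.EL.Main
import Pool.Agent.H56.EH.FIN

/-!
# MP_737bdd_co: the conjecture of Erdős, Lovász, Simmons and Straus for `m ≥ n² / 4`, and up to the
factor 24 / 25 for all numbers of edges
-/

set_option autoImplicit false

namespace Pool.Agent.H93.EL

open Pool.Agent.H68

theorem main2 (n m : ℕ) (hm1 : 1 ≤ m) (hmn : m ≤ n.choose 2) :
    -- the conjecture for `m ≥ n² / 4`
    (n ^ 2 ≤ 4 * m → (m : ℝ) ^ 2 / (n : ℝ) ^ 2 ≤ (fval 2 2 1 m n : ℝ)) ∧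
    -- the factor 24 / 25 for all numbers of edges
    (24 / 25 * ((m : ℝ) ^ 2 / (n : ℝ) ^ 2) ≤ (fval 2 2 1 m n : ℝ)) ∧
    -- the factor 48 / 49 for `m ≤ 7 n² / 36`
    (36 * m ≤ 7 * n ^ 2 → 48 / 49 * ((m : ℝ) ^ 2 / (n : ℝ) ^ 2) ≤ (fval 2 2 1 m n : ℝ)) ∧
    -- a factor which tends to 1 for sparse graphs
    ((1 - 9 * (m : ℝ) ^ 2 / (4 * (n : ℝ) ^ 4)) * ((m : ℝ) ^ 2 / (n : ℝ) ^ 2) ≤
      (fval 2 2 1 m n : ℝ)) ∧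
    -- the conjecture for sparse graphs
    (2 * m ^ 3 ≤ n ^ 5 ∨ m ^ 2 ≤ 2 * n ^ 3 →
      (m : ℝ) ^ 2 / (n : ℝ) ^ 2 ≤ (fval 2 2 1 m n : ℝ)) ∧
    -- the error is quadratic in the distance of `2 m / n²` to `1 / p`
    (∀ p : ℕ, 1 ≤ p →
      (m : ℝ) ^ 2 / (n : ℝ) ^ 2 - ((m : ℝ) / n - n / (2 * p)) ^ 2 + n / (2 * p) - 1 / 4 ≤
        (fval 2 2 1 m n : ℝ)) := by
  obtain ⟨h1, h2, h3, h4, h5, -⟩ := main n m hm1 hmn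
  refine ⟨fun h => Pool.Agent.H56.EH.half hmn h, h1, fun h => h2 (Or.inl h), h3, ?_, h5⟩
  rintro (h | h)
  · exact h4 (Or.inl h)
  · exact h4 (Or.inr (Or.inl h))

end Pool.Agent.H93.EL
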