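import Mathlib
import Pool.Agent.H68.GeomHyp
import Pool.Agent.H56.ElssGeom

/-!
# The conjecture of Erdős, Lovász, Simmons and Straus for sparse graphs (first version)

The argument of `Pool/Agent/H56`: averaging over pairs of vertices.
-/

set_option autoImplicit false

namespace Pool.Agent.H93.EL

open Finset
open Pool.Agent.H68 Pool.Agent.H56.Elss

/-- real form of the averaging inequality, with `N = n - 1` and `x = 2 m / n`. -/
theorem real_ineq (G : GeomHyp 2 2) (M : ℕ)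
    (hM : ∀ L : AffineSubspace ℝ (Pt 2), IsFlat 1 L → numMet G L ≤ M) (u v : ℝ)
    (huv : ∀ K : ℝ, 0 ≤ K → K ≤ (G.V.card : ℝ) - 1 →
      u + v * K ≤ -K ^ 3 + 2 * ((G.V.card : ℝ) - 1) * K ^ 2 + (12 * (G.V.card : ℝ) - 17) * K) :
    (G.V.card : ℝ) * u + v * (2 * (G.E.card : ℝ)) ≤
      8 * (G.V.card : ℝ) * ((G.V.card : ℝ) - 1) * M := by
  classical
  have h := main_ineq G M hM
  have h' : ∑ a : G.V, (-((graph G).degree a : ℝ) ^ 3 + 2 * ((G.V.card : ℝ) - 1) *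
      ((graph G).degree a : ℝ) ^ 2 + (12 * (G.V.card : ℝ) - 17) * ((graph G).degree a : ℝ)) ≤
      8 * (G.V.card : ℝ) * ((G.V.card : ℝ) - 1) * M := by
    exact_mod_cast h
  refine le_trans ?_ h'
  have h2 : ∑ a : G.V, (u + v * ((graph G).degree a : ℝ)) =
      (G.V.card : ℝ) * u + v * (2 * (G.E.card : ℝ)) := by
    rw [sum_add_distrib, sum_const, card_univ, Fintype.card_coe, nsmul_eq_mul, ← mul_sum]
    congr 2
    exact_mod_cast sum_degree G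
  rw [← h2]
  apply sum_le_sum
  intro a _
  apply huv _ (Nat.cast_nonneg _)
  have := degree_le G a
  have h3 : ((graph G).degree a : ℝ) + 1 ≤ G.V.card := by exact_mod_cast this
  linarith

theorem exists_line (G : GeomHyp 2 2) (B : ℝ)
    (h : ∀ M : ℕ, (∀ L : AffineSubspace ℝ (Pt 2), IsFlat 1 L → numMet G L ≤ M) → B ≤ M) :
    ∃ L : AffineSubspace ℝ (Pt 2), IsFlat 1 L ∧ ⌈B⌉₊ ≤ numMet G L := by
  by_contra hcon
  push Not at hcon
  have hflat : ∃ L : AffineSubspace ℝ (Pt 2), IsFlat 1 L := by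
    refine ⟨line[ℝ, 0, EuclideanSpace.single 0 1], isFlat_line ?_⟩
    intro h
    have := congrArg (fun z : Pt 2 => z 0) h
    simp at this
  obtain ⟨L0, hL0⟩ := hflat
  have hpos : 0 < ⌈B⌉₊ := lt_of_le_of_lt (Nat.zero_le _) (hcon L0 hL0)
  have h1 := h (⌈B⌉₊ - 1) (fun L hL => by have := hcon L hL; omega)
  have h2 : ⌈B⌉₊ ≤ ⌈B⌉₊ - 1 := Nat.ceil_le.2 h1
  omega

/-- tangent line bound -/
theorem tangent (N c x K : ℝ) (hKN : K ≤ N) (hx : 2 * x ≤ N) :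
    (2 * x ^ 3 - 2 * N * x ^ 2) + (-3 * x ^ 2 + 4 * N * x + c) * K ≤
      -K ^ 3 + 2 * N * K ^ 2 + c * K := by
  have h : -K ^ 3 + 2 * N * K ^ 2 + c * K - ((2 * x ^ 3 - 2 * N * x ^ 2) +
      (-3 * x ^ 2 + 4 * N * x + c) * K) = (K - x) ^ 2 * (2 * N - K - 2 * x) := by ring
  have h2 : 0 ≤ (K - x) ^ 2 * (2 * N - K - 2 * x) := by
    apply mul_nonneg (sq_nonneg _); linarith
  linarith

/-- chord bound -/
theorem chord (N c K : ℝ) (hKN : K ≤ N) :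
    (-(N ^ 3 / 4)) + (5 * N ^ 2 / 4 + c) * K ≤ -K ^ 3 + 2 * N * K ^ 2 + c * K := by
  have h : -K ^ 3 + 2 * N * K ^ 2 + c * K - ((-(N ^ 3 / 4)) + (5 * N ^ 2 / 4 + c) * K) =
      (N - K) * (K - N / 2) ^ 2 := by ring
  have h2 : 0 ≤ (N - K) * (K - N / 2) ^ 2 := by
    apply mul_nonneg (by linarith) (sq_nonneg _)
  linarith

/-- For `x ≤ N/2`: the value of the averaging bound. -/
theorem bound_dense (G : GeomHyp 2 2) (n m : ℕ) (hn : G.V.card = n) (hm : G.E.card = m)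
    (hn2 : 2 ≤ n) (h4 : 4 * m ≤ n * (n - 1)) (M : ℕ)
    (hM : ∀ L : AffineSubspace ℝ (Pt 2), IsFlat 1 L → numMet G L ≤ M) :
    (m : ℝ) ^ 2 / n ^ 2 + ((12 * n - 17) * m / (4 * n) - (m : ℝ) ^ 3 / n ^ 3) / (n - 1) ≤ M := by
  have hn1 : (1 : ℝ) < n := by exact_mod_cast (by omega : 1 < n)
  have hn0 : (0 : ℝ) < n := by linarith
  have hN : (0 : ℝ) < (n : ℝ) - 1 := by linarith
  set x : ℝ := 2 * m / n with hx
  have hx0 : 0 ≤ x := by positivity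
  have h4' : 4 * (m : ℝ) ≤ n * (n - 1) := by
    have : ((4 * m : ℕ) : ℝ) ≤ ((n * (n - 1) : ℕ) : ℝ) := by exact_mod_cast h4
    push_cast [Nat.cast_sub (by omega : 1 ≤ n)] at this
    exact this
  have hx2 : 2 * x ≤ (n : ℝ) - 1 := by
    rw [hx]
    rw [show 2 * (2 * (m : ℝ) / n) = 4 * m / n by ring, div_le_iff₀ hn0]
    linarith
  have h := real_ineq G M hM (2 * x ^ 3 - 2 * ((n : ℝ) - 1) * x ^ 2)
    (-3 * x ^ 2 + 4 * ((n : ℝ) - 1) * x + (12 * n - 17)) (by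
      intro K h0 h1
      rw [hn] at h1 ⊢
      exact tangent _ _ _ _ h1 hx2)
  rw [hn, hm] at h
  have hm' : (2 * (m : ℝ)) = x * n := by rw [hx]; field_simp
  rw [hm'] at h
  have h5 : -x ^ 3 + 2 * ((n : ℝ) - 1) * x ^ 2 + (12 * n - 17) * x ≤ 8 * ((n : ℝ) - 1) * M := by
    have h6 : (n : ℝ) * (-x ^ 3 + 2 * ((n : ℝ) - 1) * x ^ 2 + (12 * n - 17) * x) ≤
        n * (8 * ((n : ℝ) - 1) * M) := by nlinarith [h]
    exact le_of_mul_le_mul_left h6 hn0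
  have h7 : (m : ℝ) ^ 2 / n ^ 2 + ((12 * n - 17) * m / (4 * n) - (m : ℝ) ^ 3 / n ^ 3) / (n - 1) =
      (-x ^ 3 + 2 * ((n : ℝ) - 1) * x ^ 2 + (12 * n - 17) * x) / (8 * ((n : ℝ) - 1)) := by
    rw [hx]; field_simp; ring
  rw [h7, div_le_iff₀ (by positivity)]
  linarith

/-- The sparse case. -/
theorem bound_sparse (G : GeomHyp 2 2) (n m : ℕ) (hn : G.V.card = n) (hm : G.E.card = m)
    (hn2 : 2 ≤ n) (hmn : m ≤ n.choose 2) (h4 : m ^ 2 ≤ 2 * n ^ 3) (M : ℕ)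
    (hM : ∀ L : AffineSubspace ℝ (Pt 2), IsFlat 1 L → numMet G L ≤ M) :
    (m : ℝ) ^ 2 / n ^ 2 ≤ M := by
  have hn1 : (1 : ℝ) < n := by exact_mod_cast (by omega : 1 < n)
  have hn2' : (2 : ℝ) ≤ n := by exact_mod_cast hn2
  have hn0 : (0 : ℝ) < n := by linarith
  have hN : (0 : ℝ) < (n : ℝ) - 1 := by linarith
  set x : ℝ := 2 * m / n with hx
  have hx0 : 0 ≤ x := by positivity
  have hm' : (2 * (m : ℝ)) = x * n := by rw [hx]; field_simp
  have hxN : x ≤ (n : ℝ) - 1 := by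
    have h1 : 2 * m ≤ n * (n - 1) := by
      rw [Nat.choose_two_right] at hmn
      omega
    have : ((2 * m : ℕ) : ℝ) ≤ ((n * (n - 1) : ℕ) : ℝ) := by exact_mod_cast h1
    push_cast [Nat.cast_sub (by omega : 1 ≤ n)] at this
    rw [hx, div_le_iff₀ hn0]
    linarith
  have hx8 : x ^ 2 ≤ 8 * n := by
    have : ((m ^ 2 : ℕ) : ℝ) ≤ ((2 * n ^ 3 : ℕ) : ℝ) := by exact_mod_cast h4
    push_cast at this
    have h2 : (x * n) ^ 2 ≤ 8 * n ^ 3 := by rw [← hm']; nlinarith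
    have h3 : x ^ 2 * n ^ 2 ≤ (8 * n) * n ^ 2 := by nlinarith
    exact le_of_mul_le_mul_right h3 (by positivity)
  have hgoal : (m : ℝ) ^ 2 / n ^ 2 = x ^ 2 / 4 := by rw [hx]; field_simp; ring
  rw [hgoal]
  -- it suffices to have `2 N x² ≤ 8 N M`
  suffices hs : 2 * ((n : ℝ) - 1) * x ^ 2 ≤ 8 * ((n : ℝ) - 1) * M by
    have : ((n : ℝ) - 1) * (x ^ 2 / 4) ≤ ((n : ℝ) - 1) * M := by linarith
    exact le_of_mul_le_mul_left this hN
  rcases le_or_gt (2 * x) ((n : ℝ) - 1) with hc | hc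
  · have h := real_ineq G M hM (2 * x ^ 3 - 2 * ((n : ℝ) - 1) * x ^ 2)
      (-3 * x ^ 2 + 4 * ((n : ℝ) - 1) * x + (12 * n - 17)) (by
        intro K h0 h1
        rw [hn] at h1 ⊢
        exact tangent _ _ _ _ h1 hc)
    rw [hn, hm, hm'] at h
    have h5 : -x ^ 3 + 2 * ((n : ℝ) - 1) * x ^ 2 + (12 * n - 17) * x ≤
        8 * ((n : ℝ) - 1) * M := by
      have h6 : (n : ℝ) * (-x ^ 3 + 2 * ((n : ℝ) - 1) * x ^ 2 + (12 * n - 17) * x) ≤
          n * (8 * ((n : ℝ) - 1) * M) := by nlinarith [h]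
      exact le_of_mul_le_mul_left h6 hn0
    have h7 : x ^ 2 ≤ 12 * n - 17 := by
      rcases Nat.lt_or_ge n 5 with h5' | h5'
      · have h6 : x ^ 2 ≤ ((n : ℝ) - 1) ^ 2 := by gcongr
        have h10 : (n : ℝ) ≤ 4 := by exact_mod_cast (by omega : n ≤ 4)
        nlinarith [mul_nonneg (sub_nonneg.2 hn2') (sub_nonneg.2 h10)]
      · have : (5 : ℝ) ≤ n := by exact_mod_cast h5'
        linarith
    nlinarith [mul_nonneg hx0 (sub_nonneg.2 h7)]
  · have h := real_ineq G M hM (-(((n : ℝ) - 1) ^ 3 / 4))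
      (5 * ((n : ℝ) - 1) ^ 2 / 4 + (12 * n - 17)) (by
        intro K h0 h1
        rw [hn] at h1 ⊢
        exact chord _ _ _ h1)
    rw [hn, hm, hm'] at h
    have h5 : (-(((n : ℝ) - 1) ^ 3 / 4)) + (5 * ((n : ℝ) - 1) ^ 2 / 4 + (12 * n - 17)) * x ≤
        8 * ((n : ℝ) - 1) * M := by
      have h6 : (n : ℝ) * ((-(((n : ℝ) - 1) ^ 3 / 4)) +
          (5 * ((n : ℝ) - 1) ^ 2 / 4 + (12 * n - 17)) * x) ≤
          n * (8 * ((n : ℝ) - 1) * M) := by nlinarith [h]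
      exact le_of_mul_le_mul_left h6 hn0
    refine le_trans ?_ h5
    set N : ℝ := (n : ℝ) - 1 with hNdef
    have hnN : (n : ℝ) = N + 1 := by rw [hNdef]; ring
    rw [hnN] at hx8 ⊢
    have hN1 : 1 ≤ N := by linarith
    -- `2 N x ≤ 3 N² / 4 + 12 N - 5`
    have h8 : 2 * N * x ≤ 3 * N ^ 2 / 4 + 12 * N - 5 := by
      rcases le_or_gt N 9 with h9 | h9
      · nlinarith [mul_nonneg (sub_nonneg.2 hN1) (sub_nonneg.2 h9),
          mul_nonneg hN.le (sub_nonneg.2 hxN)]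
      · nlinarith [sq_nonneg (3 * x - 32), mul_nonneg hN.le (sq_nonneg (3 * x - 32)),
          mul_nonneg hN.le (sub_nonneg.2 hx8)]
    have h9 : N ^ 3 / 4 ≤ N ^ 2 * x / 2 := by nlinarith [mul_pos hN hN]
    nlinarith [mul_le_mul_of_nonneg_right h8 hx0]

/-- The averaging bound for `f`, when the average degree is at most `(n - 1) / 2`. -/
theorem fval_bound (n m : ℕ) (hm1 : 1 ≤ m) (h4 : 4 * m ≤ n * (n - 1)) :
    (m : ℝ) ^ 2 / (n : ℝ) ^ 2 +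
      ((12 * (n : ℝ) - 17) * m / (4 * n) - (m : ℝ) ^ 3 / (n : ℝ) ^ 3) / ((n : ℝ) - 1) ≤
      (fval 2 2 1 m n : ℝ) := by
  have hn2 : 2 ≤ n := by
    by_contra h
    have : n * (n - 1) = 0 := by
      rcases Nat.lt_or_ge n 1 with h1 | h1
      · simp [Nat.lt_one_iff.1 h1]
      · have : n = 1 := by omega
        simp [this]
    omega
  have hmn : m ≤ n.choose 2 := by
    rw [Nat.choose_two_right]; omega
  have h : ⌈(m : ℝ) ^ 2 / (n : ℝ) ^ 2 +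
      ((12 * (n : ℝ) - 17) * m / (4 * n) - (m : ℝ) ^ 3 / (n : ℝ) ^ 3) / ((n : ℝ) - 1)⌉₊ ≤
      fval 2 2 1 m n := by
    apply le_fval (exists_geomHyp (by norm_num) (by norm_num) hmn)
    intro G hG1 hG2
    exact exists_line G _ (fun M hM => bound_dense G n m hG1 hG2 hn2 h4 M hM)
  exact (Nat.le_ceil _).trans (by exact_mod_cast h)

/-- the conjectured bound for `m² ≤ 2 n³`, and for `m ≤ n (n - 1) / 4`, `4 m² ≤ n² (12 n - 17)` -/
theorem old : ∀ n m : ℕ, 1 ≤ m → m ≤ n.choose 2 →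
      (m ^ 2 ≤ 2 * n ^ 3 ∨ (4 * m ≤ n * (n - 1) ∧ 4 * m ^ 2 + 17 * n ^ 2 ≤ 12 * n ^ 3)) →
      (m : ℝ) ^ 2 / (n : ℝ) ^ 2 ≤ (fval 2 2 1 m n : ℝ) := by
  intro n m hm1 hmn h4
  have hn2 : 2 ≤ n := by
    by_contra h
    rw [Nat.choose_eq_zero_of_lt (by omega)] at hmn
    omega
  rcases h4 with h4 | ⟨h4, h5⟩
  · have h : ⌈(m : ℝ) ^ 2 / (n : ℝ) ^ 2⌉₊ ≤ fval 2 2 1 m n := by
      apply le_fval (exists_geomHyp (by norm_num) (by norm_num) hmn)
      intro G hG1 hG2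
      exact exists_line G _ (fun M hM => bound_sparse G n m hG1 hG2 hn2 hmn h4 M hM)
    exact (Nat.le_ceil _).trans (by exact_mod_cast h)
  · refine le_trans ?_ (fval_bound n m hm1 h4)
    have hn1 : (1 : ℝ) < n := by exact_mod_cast (by omega : 1 < n)
    have hn0 : (0 : ℝ) < n := by linarith
    have hm0 : (0 : ℝ) ≤ m := by positivity
    have h6 : 4 * (m : ℝ) ^ 2 + 17 * n ^ 2 ≤ 12 * n ^ 3 := by exact_mod_cast h5
    have h7 : (0 : ℝ) ≤ ((12 * (n : ℝ) - 17) * m / (4 * n) - (m : ℝ) ^ 3 / (n : ℝ) ^ 3) /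
        ((n : ℝ) - 1) := by
      apply div_nonneg _ (by linarith)
      rw [sub_nonneg, div_le_div_iff₀ (by positivity) (by positivity)]
      have h8 : 4 * (m : ℝ) ^ 2 ≤ n ^ 2 * (12 * n - 17) := by linarith
      have h9 := mul_le_mul_of_nonneg_left h8 (mul_nonneg hm0 hn0.le)
      linarith [h9]
    linarith

end Pool.Agent.H93.EL
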