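import Pool.Agent.H93.EL.CutA

/-!
# Module TreA (100 lines): `k - 1` lines which split two separated sets into `k` parts each

PROOF. Induction on `la` (for all `lb`, `P`, `Q`). `la = [a]`: then `lb = [b]` and `l = []`; `uns [] P` is
contained in `P.offDiag`, of cardinality `P.card * P.card - P.card = a * (a - 1)` (`Finset.offDiag_card`;
`a * a - a = a * (a - 1)` by `Nat.mul_sub_one`), the same for `Q`. `la = a :: la'` with `la'` not
empty: `lb = b :: lb'`, `lb'` not empty with the same length. `cutA` with `α = a ≤ la.sum = P.card`, `β = b`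
gives `A`. The induction hypothesis for `la'`, `lb'`, `P \ A`, `Q \ A` (`(P \ A).card = P.card - a`,
`Finset.card_sdiff_add_card_inter`) gives `l'`. Take `l = A :: l'`. A pair `z ∈ uns l P` is not separated
by `A`, so both coordinates are in `A ∩ P` or both in `P \ A`; in the second case `z ∈ uns l' (P \ A)`. So
`uns l P ⊆ (A ∩ P).offDiag ∪ uns l' (P \ A)`. The same for `Q`.
-/

set_option autoImplicit false

namespace Pool.Agent.H93.EL

open Finset Pool.Agent.H68
open scoped Classical

/-- one step: the pairs left by `A :: l'` -/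
private lemma TreA_step (A : Finset (Pt 2)) (l' : List (Finset (Pt 2))) (P : Finset (Pt 2)) :
    uns (A :: l') P ⊆ (A ∩ P).offDiag ∪ uns l' (P \ A) := by
  intro z hz
  rw [uns, mem_filter, mem_offDiag] at hz
  obtain ⟨⟨h1, h2, h3⟩, h4⟩ := hz
  have hA := h4 A (by simp)
  rw [Sep, not_not] at hA
  rw [mem_union]
  by_cases hz1 : z.1 ∈ A
  · left
    rw [mem_offDiag]
    exact ⟨mem_inter.2 ⟨hz1, h1⟩, mem_inter.2 ⟨hA.1 hz1, h2⟩, h3⟩
  · right
    have hz2 : z.2 ∉ A := fun h => hz1 (hA.2 h)
    rw [uns, mem_filter, mem_offDiag]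
    exact ⟨⟨mem_sdiff.2 ⟨h1, hz1⟩, mem_sdiff.2 ⟨h2, hz2⟩, h3⟩,
      fun B hB => h4 B (List.mem_cons_of_mem _ hB)⟩

private lemma TreA_card (A : Finset (Pt 2)) (l' : List (Finset (Pt 2))) (P : Finset (Pt 2)) (a N : ℕ)
    (hA : (A ∩ P).card = a) (hN : (uns l' (P \ A)).card ≤ N) :
    (uns (A :: l') P).card ≤ a * (a - 1) + N := by
  refine (card_le_card (TreA_step A l' P)).trans ((card_union_le _ _).trans ?_)
  refine Nat.add_le_add ?_ hN
  rw [offDiag_card, hA, Nat.mul_sub_one]

private lemma TreA_base (P : Finset (Pt 2)) (a : ℕ) (hP : a = P.card) :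
    (uns [] P).card ≤ a * (a - 1) := by
  refine (card_le_card (filter_subset _ _)).trans ?_
  rw [offDiag_card, ← hP, Nat.mul_sub_one]

theorem treeA {V : Finset (Pt 2)} {ε : ℝ} (hF : Frame V ε) (la lb : List ℕ) (P Q : Finset (Pt 2))
    (hP : P ⊆ V) (hQ : Q ⊆ V) (hPQ : ∀ p ∈ P, ∀ q ∈ Q, gx ε p < gx ε q) (hl : la.length = lb.length)
    (hl0 : la ≠ []) (ha : la.sum = P.card) (hb : lb.sum = Q.card) :
    ∃ l : List (Finset (Pt 2)), l.length + 1 = la.length ∧ (∀ A ∈ l, IsCut V A) ∧
      (uns l P).card ≤ (la.map fun a => a * (a - 1)).sum ∧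
      (uns l Q).card ≤ (lb.map fun b => b * (b - 1)).sum := by
  induction la generalizing lb P Q with
  | nil => exact absurd rfl hl0
  | cons a la' ih =>
    cases lb with
    | nil => simp at hl
    | cons b lb' =>
      have hl' : la'.length = lb'.length := by simpa using hl
      rcases eq_or_ne la' [] with h0 | h0
      · subst h0
        have h1 : lb' = [] := List.length_eq_zero_iff.1 (by simpa using hl'.symm)
        subst h1
        refine ⟨[], by simp, by simp, ?_, ?_⟩
        · simpa using TreA_base P a (by simpa using ha)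
        · simpa using TreA_base Q b (by simpa using hb)
      · rw [List.sum_cons] at ha hb
        obtain ⟨A, hA, hAP, hAQ⟩ := cutA hF hP hQ hPQ (α := a) (β := b) (by omega) (by omega)
        have e1 := card_sdiff_add_card_inter P A
        have e2 := card_sdiff_add_card_inter Q A
        rw [inter_comm P A] at e1
        rw [inter_comm Q A] at e2
        obtain ⟨l', k1, k2, k3, k4⟩ := ih lb' (P \ A) (Q \ A) (sdiff_subset.trans hP)
          (sdiff_subset.trans hQ)
          (fun p hp q hq => hPQ p (mem_sdiff.1 hp).1 q (mem_sdiff.1 hq).1) hl' h0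
          (by omega) (by omega)
        refine ⟨A :: l', by simp [k1], ?_, ?_, ?_⟩
        · intro B hB
          rcases List.mem_cons.1 hB with h | h
          · rw [h]; exact hA
          · exact k2 B h
        · rw [List.map_cons, List.sum_cons]
          exact TreA_card A l' P a _ hAP k3
        · rw [List.map_cons, List.sum_cons]
          exact TreA_card A l' Q b _ hAQ k4

end Pool.Agent.H93.EL
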