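import Pool.Agent.H93.EL.CutB

/-!
# Module TreB (130 lines): halving lines which leave few pairs separated by all of them

PROOF. `bad_leaf`: the pairs of `bad [X] P` are in `(P ∩ X) ×ˢ (P \ X) ∪ (P \ X) ×ˢ (P ∩ X)`, so
`(bad [X] P).card ≤ 2 u w` with `u = (P ∩ X).card`, `w = (P \ X).card`, `u + w = P.card`, and
`4 u w ≤ (u + w)²`.
`treeB`: induction on `k` (for all `P`). `k = 0`: `l = []`, `zs = []`, `bad_leaf`. `k + 1`: `cutB` for `P` and
`a` (`a + 1 ≤ (k + 1) (a + 1) ≤ P.card`) gives `A`; `W = symmDiff A X ∩ P`, `z = W.card ∈ {a, a + 1}`.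
Induction hypothesis for `P \ W`: `(P \ W).card = P.card - z ≥ k (a + 1)`, gives `l'`, `zs'`. Take
`l = A :: l'`, `zs = z :: zs'`. Let `y ∈ bad (X :: A :: l') P`: it is separated by `X` and by `A`, so
`y.1 ∈ symmDiff A X ↔ y.2 ∈ symmDiff A X` (propositional logic, `Finset.mem_symmDiff`). So both
coordinates are in `W` and `y ∈ bad [X] W`, or both are in `P \ W` and `y ∈ bad (X :: l') (P \ W)`. So
`2 (bad ..).card ≤ W.card ^ 2 + 2 (bad (X :: l') (P \ W)).card`, and `(P \ W).card - zs'.sum =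
P.card - (z + zs'.sum)`.
-/

set_option autoImplicit false

namespace Pool.Agent.H93.EL

open Finset Pool.Agent.H68
open scoped Classical

theorem bad_leaf (X P : Finset (Pt 2)) : 2 * (bad [X] P).card ≤ P.card ^ 2 := by
  have hsub : bad [X] P ⊆ (P ∩ X) ×ˢ (P \ X) ∪ (P \ X) ×ˢ (P ∩ X) := by
    intro z hz
    rw [bad, mem_filter, mem_offDiag] at hz
    obtain ⟨⟨h1, h2, h3⟩, h4⟩ := hz
    have hX := h4 X (by simp)
    rw [Sep] at hX
    rw [mem_union, mem_product, mem_product, mem_inter, mem_inter, mem_sdiff, mem_sdiff]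
    tauto
  have hc : (bad [X] P).card ≤ (P ∩ X).card * (P \ X).card + (P \ X).card * (P ∩ X).card := by
    refine (card_le_card hsub).trans ((card_union_le _ _).trans ?_)
    rw [card_product, card_product]
  have e := card_sdiff_add_card_inter P X
  have e' : P.card = (P ∩ X).card + (P \ X).card := by omega
  rw [e']
  generalize (P ∩ X).card = u at *
  generalize (P \ X).card = w at *
  have key : 4 * (u * w) ≤ (u + w) ^ 2 := by
    rcases le_total u w with h | h
    · obtain ⟨d, rfl⟩ := Nat.exists_eq_add_of_le h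
      nlinarith [Nat.zero_le (d ^ 2)]
    · obtain ⟨d, rfl⟩ := Nat.exists_eq_add_of_le h
      nlinarith [Nat.zero_le (d ^ 2)]
  nlinarith

/-- one step: the pairs separated by `X` and `A` -/
private lemma TreB_step (X A : Finset (Pt 2)) (l' : List (Finset (Pt 2))) (P : Finset (Pt 2)) :
    bad (X :: A :: l') P ⊆ bad [X] (symmDiff A X ∩ P) ∪
      bad (X :: l') (P \ (symmDiff A X ∩ P)) := by
  intro z hz
  rw [bad, mem_filter, mem_offDiag] at hz
  obtain ⟨⟨h1, h2, h3⟩, h4⟩ := hz
  have hX := h4 X (by simp)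
  have hA := h4 A (by simp)
  have hX' := hX
  rw [Sep] at hX' hA
  rw [mem_union]
  by_cases hz1 : z.1 ∈ symmDiff A X
  · left
    have hz2 : z.2 ∈ symmDiff A X := by
      rw [mem_symmDiff] at hz1 ⊢
      tauto
    rw [bad, mem_filter, mem_offDiag, mem_inter, mem_inter]
    refine ⟨⟨⟨hz1, h1⟩, ⟨hz2, h2⟩, h3⟩, ?_⟩
    intro B hB
    have : B = X := by simpa using hB
    rw [this]
    exact hX
  · right
    have hz2 : z.2 ∉ symmDiff A X := by
      rw [mem_symmDiff] at hz1 ⊢
      tauto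
    rw [bad, mem_filter, mem_offDiag, mem_sdiff, mem_sdiff, mem_inter, mem_inter]
    refine ⟨⟨⟨h1, fun h => hz1 h.1⟩, ⟨h2, fun h => hz2 h.1⟩, h3⟩, ?_⟩
    intro B hB
    rcases List.mem_cons.1 hB with h | h
    · rw [h]
      exact hX
    · exact h4 B (by simp [h])

theorem treeB {V : Finset (Pt 2)} {ε : ℝ} (hF : Frame V ε) {X : Finset (Pt 2)} {h : ℕ}
    (hXV : X ⊆ V) (hXc : X.card = h) (hX : ∀ p ∈ X, ∀ q ∈ V, q ∉ X → gx ε p < gx ε q)
    (h1 : 2 * h ≤ V.card) (h2 : V.card ≤ 2 * h + 1) (a k : ℕ) (P : Finset (Pt 2)) (hP : P ⊆ V)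
    (ha : k * (a + 1) ≤ P.card) :
    ∃ (l : List (Finset (Pt 2))) (zs : List ℕ), l.length = k ∧ zs.length = k ∧
      (∀ A ∈ l, IsCut V A ∧ A.card = h) ∧ (∀ z ∈ zs, z = a ∨ z = a + 1) ∧
      zs.sum ≤ P.card ∧
      2 * (bad (X :: l) P).card ≤ (zs.map fun z => z ^ 2).sum + (P.card - zs.sum) ^ 2 := by
  induction k generalizing P with
  | zero =>
    refine ⟨[], [], rfl, rfl, by simp, by simp, by simp, ?_⟩
    simpa using bad_leaf X P
  | succ k ih =>
    have hk : (k + 1) * (a + 1) = k * (a + 1) + (a + 1) := by ring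
    rw [hk] at ha
    obtain ⟨A, hA, hAc, hW⟩ := cutB hF hXV hXc hX h1 h2 hP (a := a) (by omega)
    have hWP : symmDiff A X ∩ P ⊆ P := inter_subset_right
    have hcard := card_sdiff_add_card_eq_card hWP
    obtain ⟨l', zs', e1, e2, e3, e4, e5, e6⟩ := ih (P \ (symmDiff A X ∩ P))
      (sdiff_subset.trans hP) (by omega)
    refine ⟨A :: l', (symmDiff A X ∩ P).card :: zs', by simp [e1], by simp [e2], ?_, ?_, ?_, ?_⟩
    · intro B hB
      rcases List.mem_cons.1 hB with hh | hh
      · rw [hh]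
        exact ⟨hA, hAc⟩
      · exact e3 B hh
    · intro z hz
      rcases List.mem_cons.1 hz with hh | hh
      · rw [hh]
        exact hW
      · exact e4 z hh
    · rw [List.sum_cons]
      omega
    · rw [List.sum_cons, List.map_cons, List.sum_cons]
      have h3 : (bad (X :: A :: l') P).card ≤ (bad [X] (symmDiff A X ∩ P)).card +
          (bad (X :: l') (P \ (symmDiff A X ∩ P))).card :=
        (card_le_card (TreB_step X A l' P)).trans (card_union_le _ _)
      have h4 := bad_leaf X (symmDiff A X ∩ P)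
      have h5 : (P \ (symmDiff A X ∩ P)).card - zs'.sum =
          P.card - ((symmDiff A X ∩ P).card + zs'.sum) := by omega
      rw [h5] at e6
      omega

end Pool.Agent.H93.EL
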